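import Mathlib

/-!
# Random subsets: deviation of weighted sums, and Borel-Cantelli with a growing number of tests
-/

set_option autoImplicit false

open MeasureTheory Filter Topology ProbabilityTheory

namespace Pool.Agent.Q68.RF

variable {Ω ι : Type*} [MeasurableSpace Ω] {P : Measure Ω} [IsProbabilityMeasure P]

/-- The centred indicator of an event. -/
noncomputable def cen (P : Measure Ω) (A : ι → Set Ω) (u : ι) (ω : Ω) : ℝ :=
  (A u).indicator (fun _ => (1 : ℝ)) ω - P.real (A u)

theorem mgf_cen {A : ι → Set Ω} (hA : ∀ u, MeasurableSet (A u)) (u : ι) (f : ℝ) (t : ℝ)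
    (hf : |f| ≤ 1) (ht0 : 0 ≤ t) (ht : t ≤ 1) :
    mgf (fun ω => f * cen P A u ω) P t ≤ Real.exp (t ^ 2 * P.real (A u)) := by
  have h0 : (fun ω => Real.exp (t * (f * cen P A u ω))) = fun ω =>
      Real.exp (-(t * f * P.real (A u))) * (1 + (A u).indicator (fun _ => (Real.exp (t * f) - 1)) ω) := by
    funext ω
    unfold cen
    by_cases h : ω ∈ A u
    · rw [Set.indicator_of_mem h, Set.indicator_of_mem h]
      rw [add_sub_cancel, ← Real.exp_add]
      congr 1
      ring
    · rw [Set.indicator_of_notMem h, Set.indicator_of_notMem h]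
      rw [add_zero, mul_one]
      congr 1
      ring
  have hint : Integrable ((A u).indicator (fun _ => (Real.exp (t * f) - 1))) P :=
    (integrable_const _).indicator (hA u)
  have h1 : mgf (fun ω => f * cen P A u ω) P t =
      Real.exp (-(t * f * P.real (A u))) * (1 + P.real (A u) * (Real.exp (t * f) - 1)) := by
    unfold mgf
    rw [h0, integral_const_mul, integral_add (integrable_const _) hint, integral_indicator_const _ (hA u)]
    simp
  rw [h1]
  have hp0 : 0 ≤ P.real (A u) := measureReal_nonneg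
  have h2 : 1 + P.real (A u) * (Real.exp (t * f) - 1) ≤ Real.exp (P.real (A u) * (Real.exp (t * f) - 1)) := by
    have := Real.add_one_le_exp (P.real (A u) * (Real.exp (t * f) - 1))
    linarith
  have htf : |t * f| ≤ 1 := by
    rw [abs_mul, abs_of_nonneg ht0]
    calc t * |f| ≤ 1 * 1 := mul_le_mul ht hf (abs_nonneg _) zero_le_one
      _ = 1 := one_mul 1
  have h3 := Real.abs_exp_sub_one_sub_id_le htf
  have h4 : Real.exp (t * f) - 1 - t * f ≤ t ^ 2 := by
    refine (le_abs_self _).trans (h3.trans ?_)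
    rw [mul_pow]
    have : f ^ 2 ≤ 1 := by
      rw [← sq_abs]
      calc |f| ^ 2 ≤ 1 ^ 2 := pow_le_pow_left₀ (abs_nonneg _) hf 2
        _ = 1 := one_pow 2
    nlinarith [sq_nonneg t]
  calc Real.exp (-(t * f * P.real (A u))) * (1 + P.real (A u) * (Real.exp (t * f) - 1))
      ≤ Real.exp (-(t * f * P.real (A u))) * Real.exp (P.real (A u) * (Real.exp (t * f) - 1)) :=
        mul_le_mul_of_nonneg_left h2 (Real.exp_nonneg _)
    _ = Real.exp (P.real (A u) * (Real.exp (t * f) - 1 - t * f)) := by
        rw [← Real.exp_add]; congr 1; ring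
    _ ≤ _ := by
        apply Real.exp_le_exp.2
        calc P.real (A u) * (Real.exp (t * f) - 1 - t * f) ≤ P.real (A u) * t ^ 2 :=
              mul_le_mul_of_nonneg_left h4 hp0
          _ = _ := mul_comm _ _

theorem tail {A : ι → Set Ω} (hA : ∀ u, MeasurableSet (A u)) (hind : iIndepSet A P)
    (F : Finset ι) (f : ι → ℝ) (hf : ∀ u ∈ F, |f u| ≤ 1) (ε : ℝ) (h0 : 0 ≤ ε) (h2 : ε ≤ 2) :
    P.real {ω | ε * ∑ u ∈ F, P.real (A u) ≤ ∑ u ∈ F, f u * cen P A u ω} ≤
      Real.exp (-(ε ^ 2 / 4 * ∑ u ∈ F, P.real (A u))) := by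
  classical
  set g : ι → ℝ := fun u => if u ∈ F then f u else 0 with hg
  have hg1 : ∀ u, |g u| ≤ 1 := by
    intro u
    simp only [hg]
    split_ifs with h
    · exact hf u h
    · simp
  have hX : iIndepFun (fun u ω => g u * cen P A u ω) P := by
    have h := (iIndepSet.iIndepFun_indicator (β := ℝ) hind).comp
      (fun u (y : ℝ) => g u * (y - P.real (A u))) (fun u => by fun_prop)
    exact h
  have hm : ∀ u, Measurable (fun ω => g u * cen P A u ω) := by
    intro u
    unfold cen
    exact ((measurable_const.indicator (hA u)).sub_const _).const_mul _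
  have hs := hX.mgf_sum hm F (t := ε / 2)
  have hsum : (∑ u ∈ F, fun ω => g u * cen P A u ω) = fun ω => ∑ u ∈ F, f u * cen P A u ω := by
    funext ω
    rw [Finset.sum_apply]
    refine Finset.sum_congr rfl fun u hu => ?_
    simp only [hg]
    rw [if_pos hu]
  rw [hsum] at hs
  have hmgf : mgf (fun ω => ∑ u ∈ F, f u * cen P A u ω) P (ε / 2) ≤
      Real.exp ((ε / 2) ^ 2 * ∑ u ∈ F, P.real (A u)) := by
    rw [hs, Finset.mul_sum, Real.exp_sum]
    exact Finset.prod_le_prod (fun u _ => mgf_nonneg) fun u _ =>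
      mgf_cen hA u (g u) (ε / 2) (hg1 u) (by linarith) (by linarith)
  have hbd : ∀ ω, |∑ u ∈ F, f u * cen P A u ω| ≤ ∑ u ∈ F, (2 : ℝ) := by
    intro ω
    refine (Finset.abs_sum_le_sum_abs _ _).trans (Finset.sum_le_sum fun u hu => ?_)
    rw [abs_mul]
    have hc : |cen P A u ω| ≤ 2 := by
      unfold cen
      have hp0 : 0 ≤ P.real (A u) := measureReal_nonneg
      have hp1 : P.real (A u) ≤ 1 := measureReal_le_one
      by_cases h : ω ∈ A u
      · rw [Set.indicator_of_mem h, abs_le]; constructor <;> linarith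
      · rw [Set.indicator_of_notMem h, abs_le]; constructor <;> linarith
    calc |f u| * |cen P A u ω| ≤ 1 * 2 := mul_le_mul (hf u hu) hc (abs_nonneg _) zero_le_one
      _ = 2 := one_mul 2
  have hmeas : Measurable (fun ω => ∑ u ∈ F, f u * cen P A u ω) := by
    refine Finset.measurable_sum _ fun u _ => ?_
    unfold cen
    exact ((measurable_const.indicator (hA u)).sub_const _).const_mul _
  have hint : Integrable (fun ω => Real.exp (ε / 2 * ∑ u ∈ F, f u * cen P A u ω)) P := by
    refine Integrable.of_bound (Real.measurable_exp.comp (hmeas.const_mul _)).aestronglyMeasurable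
      (Real.exp (ε / 2 * ∑ u ∈ F, (2 : ℝ))) (Eventually.of_forall fun ω => ?_)
    rw [Real.norm_eq_abs, Real.abs_exp]
    apply Real.exp_le_exp.2
    exact mul_le_mul_of_nonneg_left ((le_abs_self _).trans (hbd ω)) (by linarith)
  have h := measure_ge_le_exp_mul_mgf (μ := P) (X := fun ω => ∑ u ∈ F, f u * cen P A u ω)
    (t := ε / 2) (ε * ∑ u ∈ F, P.real (A u)) (by linarith) hint
  refine h.trans ?_
  calc Real.exp (-(ε / 2) * (ε * ∑ u ∈ F, P.real (A u))) *
        mgf (fun ω => ∑ u ∈ F, f u * cen P A u ω) P (ε / 2)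
      ≤ Real.exp (-(ε / 2) * (ε * ∑ u ∈ F, P.real (A u))) *
        Real.exp ((ε / 2) ^ 2 * ∑ u ∈ F, P.real (A u)) :=
        mul_le_mul_of_nonneg_left hmgf (Real.exp_nonneg _)
    _ = _ := by rw [← Real.exp_add]; congr 1; ring

/-- At least half of the expected number of events occur, except for a small probability. -/
theorem lower {A : ι → Set Ω} (hA : ∀ u, MeasurableSet (A u)) (hind : iIndepSet A P)
    (F : Finset ι) (w : ℝ) (hw : w ≤ ∑ u ∈ F, P.real (A u)) :
    P.real {ω | ∑ u ∈ F, (A u).indicator (fun _ => (1 : ℝ)) ω ≤ w / 2} ≤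
      Real.exp (-(w / 16)) := by
  rcases le_or_gt w 0 with h0 | h0
  · refine measureReal_le_one.trans ?_
    exact Real.one_le_exp (by linarith)
  have h := tail (P := P) hA hind F (fun _ => -1) (fun u _ => by simp) (1 / 2) (by norm_num)
    (by norm_num)
  refine (measureReal_mono ?_).trans (h.trans ?_)
  · intro ω hω
    simp only [Set.mem_ofPred_eq, cen] at hω ⊢
    rw [← Finset.mul_sum, Finset.sum_sub_distrib]
    linarith
  · apply Real.exp_le_exp.2
    linarith

end Pool.Agent.Q68.RF
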