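import Mathlib
import Pool.Agent.Q68.RF.Chern

/-!
# Borel-Cantelli over growing grids, and grids of the circle
-/

set_option autoImplicit false

open MeasureTheory Filter Topology ProbabilityTheory

namespace Pool.Agent.Q68.RF

variable {Ω : Type*} [MeasurableSpace Ω] {P : Measure Ω} [IsProbabilityMeasure P]

theorem bc {β : Type*} (G : ℕ → Finset β) (B : ℕ → β → Set Ω) (b C : ℝ) (hb : 1 ≤ b) (hC : 0 ≤ C)
    (hG : ∀ n, ((G n).card : ℝ) ≤ C * b ^ n) (θ : ℕ → ℝ)
    (hθ : Tendsto (fun n : ℕ => θ n / n) atTop atTop)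
    (hB : ∀ n, ∀ y ∈ G n, P.real (B n y) ≤ Real.exp (-θ n)) :
    ∀ᵐ ω ∂P, ∀ᶠ n in atTop, ∀ y ∈ G n, ω ∉ B n y := by
  have hb0 : 0 < b := by linarith
  have h1 : ∀ n, P.real (⋃ y ∈ G n, B n y) ≤ C * b ^ n * Real.exp (-θ n) := by
    intro n
    calc P.real (⋃ y ∈ G n, B n y) ≤ ∑ y ∈ G n, P.real (B n y) := measureReal_biUnion_finset_le _ _
      _ ≤ ∑ y ∈ G n, Real.exp (-θ n) := Finset.sum_le_sum fun y hy => hB n y hy
      _ = (G n).card * Real.exp (-θ n) := by rw [Finset.sum_const, nsmul_eq_mul]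
      _ ≤ _ := mul_le_mul_of_nonneg_right (hG n) (Real.exp_nonneg _)
  have h2 : ∀ᶠ n : ℕ in atTop, P.real (⋃ y ∈ G n, B n y) ≤ C * Real.exp (-(n : ℝ)) := by
    filter_upwards [hθ.eventually_ge_atTop (Real.log b + 1), eventually_ge_atTop 1] with n hn hn1
    have hn0 : (0 : ℝ) < n := by exact_mod_cast hn1
    rw [le_div_iff₀ hn0] at hn
    refine (h1 n).trans ?_
    rw [mul_assoc]
    refine mul_le_mul_of_nonneg_left ?_ hC
    have e : b ^ n = Real.exp (n * Real.log b) := by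
      rw [Real.exp_nat_mul, Real.exp_log hb0]
    rw [e, ← Real.exp_add]
    apply Real.exp_le_exp.2
    nlinarith
  have h3 : Summable fun n : ℕ => P.real (⋃ y ∈ G n, B n y) := by
    refine Summable.of_norm_bounded_eventually_nat (g := fun n : ℕ => C * Real.exp (-(n : ℝ))) ?_ ?_
    · exact (Real.summable_exp_neg_nat).mul_left C
    · filter_upwards [h2] with n hn
      rw [Real.norm_eq_abs, abs_of_nonneg measureReal_nonneg]
      exact hn
  have h4 : ∑' n, P (⋃ y ∈ G n, B n y) ≠ ⊤ := by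
    have h5 : ∀ n, P (⋃ y ∈ G n, B n y) = ENNReal.ofReal (P.real (⋃ y ∈ G n, B n y)) := by
      intro n
      rw [ofReal_measureReal (measure_ne_top P _)]
    simp_rw [h5]
    rw [← ENNReal.ofReal_tsum_of_nonneg (fun n => measureReal_nonneg) h3]
    exact ENNReal.ofReal_ne_top
  filter_upwards [ae_eventually_notMem h4] with ω hω
  filter_upwards [hω] with n hn y hy hyB
  exact hn (Set.mem_biUnion hy hyB)

theorem norm_coe_le (x : ℝ) : ‖(x : UnitAddCircle)‖ ≤ |x| := by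
  rw [UnitAddCircle.norm_eq]
  have := round_le x 0
  simpa using this

theorem exists_grid (N : ℕ) (hN : 1 ≤ N) (x : UnitAddCircle) :
    ∃ k < N, ‖x - (((k : ℝ) / N : ℝ) : UnitAddCircle)‖ ≤ 1 / N := by
  have hN0 : (0 : ℝ) < N := by exact_mod_cast hN
  obtain ⟨t, ht, rfl⟩ := (AddCircle.coe_image_Ico_eq (1 : ℝ) 0).symm ▸ Set.mem_univ x
  rw [zero_add] at ht
  refine ⟨⌊t * N⌋₊, ?_, ?_⟩
  · rw [Nat.floor_lt (by nlinarith [ht.1])]
    nlinarith [ht.2]
  · rw [← AddCircle.coe_sub]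
    refine (norm_coe_le _).trans ?_
    rw [abs_le]
    have h1 : (⌊t * N⌋₊ : ℝ) ≤ t * N := Nat.floor_le (by nlinarith [ht.1])
    have h2 : t * N < ⌊t * N⌋₊ + 1 := Nat.lt_floor_add_one _
    have e : t - (⌊t * N⌋₊ : ℝ) / N = (t * N - ⌊t * N⌋₊) / N := by
      field_simp
    rw [e]
    constructor
    · have : 0 ≤ (t * N - ⌊t * N⌋₊) / N := div_nonneg (by linarith) hN0.le
      have h3 : 0 ≤ 1 / (N : ℝ) := by positivity
      linarith
    · exact div_le_div_of_nonneg_right (by linarith) hN0.le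

/-- The grid of mesh `1 / N`. -/
noncomputable def grid (N : ℕ) : Finset UnitAddCircle :=
  (Finset.range N).image fun k : ℕ => (((k : ℝ) / N : ℝ) : UnitAddCircle)

theorem grid_card (N : ℕ) : (grid N).card ≤ N := by
  refine Finset.card_image_le.trans ?_
  rw [Finset.card_range]

theorem exists_mem_grid (N : ℕ) (hN : 1 ≤ N) (x : UnitAddCircle) :
    ∃ y ∈ grid N, ‖x - y‖ ≤ 1 / N := by
  obtain ⟨k, hk, h⟩ := exists_grid N hN x
  exact ⟨_, Finset.mem_image.2 ⟨k, Finset.mem_range.2 hk, rfl⟩, h⟩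

theorem nsmul_close (m : ℕ) (x y : UnitAddCircle) : dist (m • x) (m • y) ≤ m * ‖x - y‖ := by
  rw [dist_eq_norm, ← nsmul_sub]
  exact norm_nsmul_le

end Pool.Agent.Q68.RF
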