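import Mathlib

/-!
# Nested intervals avoiding the rational points with denominators from sparse sets
-/

set_option autoImplicit false

open Filter Topology

namespace Pool.Agent.Q68.RF

/-- One step: a digit `t < b` such that the interval `[(b a + t) / b ^ (k + 2), (b a + t + 1) / b ^ (k + 2)]`
is at distance at least `1 / (2 b ^ (k + 2))` from all `n / s`, `s ∈ T`, and does not contain `e`. -/
theorem nest_step (b m : ℕ) (hb : 4 * m + 2 < b) (k : ℕ) (T : Finset ℕ) (hcard : T.card ≤ m)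
    (hT : ∀ t ∈ T, 0 < t ∧ t < b ^ (k + 1)) (e : ℝ) (a : ℤ) :
    ∃ t : ℕ, t < b ∧
      (∀ y : ℝ, ((b : ℝ) * a + t) ≤ y → y ≤ (b : ℝ) * a + t + 1 →
        (∀ s ∈ T, ∀ n : ℤ, 1 / (2 * (b : ℝ) ^ (k + 2)) ≤ |y / (b : ℝ) ^ (k + 2) - n / s|) ∧
        y / (b : ℝ) ^ (k + 2) ≠ e) := by
  classical
  have hb0 : (0 : ℝ) < b := by
    have : 0 < b := by omega
    exact_mod_cast this
  set B : ℝ := (b : ℝ) ^ (k + 2) with hB
  have hB0 : 0 < B := by positivity
  -- the centre of the big interval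
  set c : ℝ := ((a : ℝ) + 1 / 2) / (b : ℝ) ^ (k + 1) with hc
  set fl : ℕ → ℤ := fun s => ⌊(s : ℝ) * c⌋ with hfl
  set pos : ℤ → ℕ → ℤ := fun n s => ⌊((n : ℝ) / s) * B - (b : ℝ) * a + 1 / 2⌋ with hpos
  set bad : Finset ℤ := (T.image fun s => pos (fl s) s) ∪ (T.image fun s => pos (fl s) s - 1) ∪
    (T.image fun s => pos (fl s + 1) s) ∪ (T.image fun s => pos (fl s + 1) s - 1) ∪
    {⌊e * B - (b : ℝ) * a⌋, ⌊e * B - (b : ℝ) * a⌋ - 1} with hbad
  have hcb : bad.card < b := by
    have h1 : bad.card ≤ m + m + m + m + 2 := by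
      refine (Finset.card_union_le _ _).trans (Nat.add_le_add ?_ Finset.card_le_two)
      refine (Finset.card_union_le _ _).trans (Nat.add_le_add ?_ (Finset.card_image_le.trans hcard))
      refine (Finset.card_union_le _ _).trans (Nat.add_le_add ?_ (Finset.card_image_le.trans hcard))
      refine (Finset.card_union_le _ _).trans (Nat.add_le_add (Finset.card_image_le.trans hcard)
        (Finset.card_image_le.trans hcard))
    omega
  have hex : ∃ t ∈ (Finset.range b).image (fun t : ℕ => (t : ℤ)), t ∉ bad := by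
    refine Finset.exists_mem_notMem_of_card_lt_card ?_
    rw [Finset.card_image_of_injective _ Nat.cast_injective, Finset.card_range]
    exact hcb
  obtain ⟨t', ht', htb⟩ := hex
  obtain ⟨t, ht, rfl⟩ := Finset.mem_image.1 ht'
  rw [Finset.mem_range] at ht
  refine ⟨t, ht, fun y hy1 hy2 => ⟨fun s hs n => ?_, ?_⟩⟩
  · by_contra hlt
    rw [not_le] at hlt
    apply htb
    obtain ⟨hs0, hsb⟩ := hT s hs
    have hs0' : (0 : ℝ) < s := by exact_mod_cast hs0
    have h1 : |y - (n : ℝ) / s * B| < 1 / 2 := by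
      have h2 : |y - (n : ℝ) / s * B| = |y / B - n / s| * B := by
        rw [← abs_of_pos hB0, ← abs_mul, abs_of_pos hB0]
        congr 1
        field_simp
      rw [h2]
      calc |y / B - n / s| * B < 1 / (2 * B) * B := mul_lt_mul_of_pos_right hlt hB0
        _ = 1 / 2 := by field_simp
    rw [abs_lt] at h1
    have htR : (t : ℝ) + 1 ≤ b := by exact_mod_cast ht
    have ht0 : (0 : ℝ) ≤ t := Nat.cast_nonneg t
    -- the numerator is one of two integers
    have h3 : |(n : ℝ) / s - c| ≤ 1 / (b : ℝ) ^ (k + 1) := by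
      have e1 : (n : ℝ) / s - c = ((n : ℝ) / s * B - (b * a + b / 2)) / B := by
        rw [hc, hB]
        field_simp
        ring
      rw [e1, abs_div, abs_of_pos hB0, div_le_iff₀ hB0]
      have e2 : 1 / (b : ℝ) ^ (k + 1) * B = b := by
        rw [hB]; field_simp; ring
      rw [e2, abs_le]
      have hb2 : (2 : ℝ) < b := by
        have : 2 < b := by omega
        exact_mod_cast this
      constructor <;> linarith
    have h4 : |(n : ℝ) - s * c| < 1 := by
      have e1 : (n : ℝ) - s * c = s * ((n : ℝ) / s - c) := by field_simp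
      rw [e1, abs_mul, abs_of_pos hs0']
      have hsb' : (s : ℝ) < (b : ℝ) ^ (k + 1) := by exact_mod_cast hsb
      calc (s : ℝ) * |(n : ℝ) / s - c| ≤ s * (1 / (b : ℝ) ^ (k + 1)) :=
            mul_le_mul_of_nonneg_left h3 hs0'.le
        _ = s / (b : ℝ) ^ (k + 1) := by ring
        _ < 1 := (div_lt_one (by positivity)).2 hsb'
    rw [abs_lt] at h4
    have h5 : n = fl s ∨ n = fl s + 1 := by
      have h6 : ⌊(s : ℝ) * c⌋ ≤ n := by
        have h7 : (⌊(s : ℝ) * c⌋ : ℝ) ≤ s * c := Int.floor_le _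
        have h8 : (⌊(s : ℝ) * c⌋ : ℝ) < n + 1 := by linarith
        have h9 : ⌊(s : ℝ) * c⌋ < n + 1 := by exact_mod_cast h8
        omega
      have h7 : n ≤ ⌊(s : ℝ) * c⌋ + 1 := by
        have h8 : (s : ℝ) * c < ⌊(s : ℝ) * c⌋ + 1 := Int.lt_floor_add_one _
        have h9 : (n : ℝ) < ⌊(s : ℝ) * c⌋ + 1 + 1 := by linarith
        have h10 : n < ⌊(s : ℝ) * c⌋ + 1 + 1 := by exact_mod_cast h9
        omega
      simp only [hfl]
      omega
    have h6 : (t : ℤ) = pos n s ∨ (t : ℤ) = pos n s - 1 := by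
      have h7 : (t : ℝ) < ((n : ℝ) / s) * B - (b : ℝ) * a + 1 / 2 := by linarith
      have h8 : ((n : ℝ) / s) * B - (b : ℝ) * a + 1 / 2 < t + 2 := by linarith
      have h9 : (t : ℤ) ≤ pos n s := by
        simp only [hpos]
        rw [Int.le_floor]
        push_cast
        exact h7.le
      have h10 : pos n s < t + 2 := by
        simp only [hpos]
        rw [Int.floor_lt]
        push_cast
        exact h8
      omega
    simp only [hbad, Finset.mem_union, Finset.mem_image]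
    rcases h5 with h5 | h5 <;> rcases h6 with h6 | h6 <;> rw [h5] at h6
    · exact Or.inl (Or.inl (Or.inl (Or.inl ⟨s, hs, h6.symm⟩)))
    · exact Or.inl (Or.inl (Or.inl (Or.inr ⟨s, hs, h6.symm⟩)))
    · exact Or.inl (Or.inl (Or.inr ⟨s, hs, h6.symm⟩))
    · exact Or.inl (Or.inr ⟨s, hs, h6.symm⟩)
  · intro hye
    apply htb
    have h1 : y = e * B := by
      rw [← hye]; field_simp
    have h2 : (t : ℤ) ≤ ⌊e * B - (b : ℝ) * a⌋ := by
      rw [Int.le_floor, ← h1]
      push_cast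
      linarith
    have h3 : ⌊e * B - (b : ℝ) * a⌋ < t + 2 := by
      rw [Int.floor_lt, ← h1]
      push_cast
      linarith
    simp only [hbad, Finset.mem_union, Finset.mem_insert, Finset.mem_singleton]
    right
    omega

/-- A point with all the required distances. -/
theorem nest (b m : ℕ) (hb : 4 * m + 2 < b) (T : ℕ → Finset ℕ) (hcard : ∀ k, (T k).card ≤ m)
    (hT : ∀ k, ∀ t ∈ T k, 0 < t ∧ t < b ^ (k + 1)) (e : ℕ → ℝ) :
    ∃ x : ℝ, 0 ≤ x ∧ x < 1 ∧ (∀ k, x ≠ e k) ∧
      ∀ k, ∀ s ∈ T k, ∀ n : ℤ, 1 / (2 * (b : ℝ) ^ (k + 2)) ≤ |x - n / s| := by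
  have hb0 : (0 : ℝ) < b := by
    have : 0 < b := by omega
    exact_mod_cast this
  have step := fun k a => nest_step b m hb k (T k) (hcard k) (hT k) (e k) a
  choose d hd1 hd2 using step
  -- the sequence of the left end points
  obtain ⟨a, ha0, ha⟩ : ∃ a : ℕ → ℤ, a 0 = 0 ∧
      ∀ k, a (k + 1) = (b : ℤ) * a k + (d k (a k) : ℤ) :=
    ⟨fun k => Nat.rec (0 : ℤ) (fun k ak => (b : ℤ) * ak + (d k ak : ℤ)) k, rfl, fun k => rfl⟩
  let I : ℕ → Set ℝ := fun k =>
    Set.Icc ((a k : ℝ) / (b : ℝ) ^ (k + 1)) (((a k : ℝ) + 1) / (b : ℝ) ^ (k + 1))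
  have hI : ∀ k, I (k + 1) ⊆ I k := by
    intro k y hy
    have h1 := hd1 k (a k)
    have h2 : ((a (k + 1) : ℤ) : ℝ) = (b : ℝ) * a k + (d k (a k) : ℝ) := by
      rw [ha k]; push_cast; ring
    simp only [I, Set.mem_Icc] at hy ⊢
    rw [h2] at hy
    have h3 : (d k (a k) : ℝ) + 1 ≤ b := by exact_mod_cast h1
    have h4 : (0 : ℝ) ≤ d k (a k) := Nat.cast_nonneg _
    have e1 : (a k : ℝ) / (b : ℝ) ^ (k + 1) = (b : ℝ) * a k / (b : ℝ) ^ (k + 1 + 1) := by
      rw [pow_succ (b : ℝ) (k + 1)]; field_simp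
    have e2 : ((a k : ℝ) + 1) / (b : ℝ) ^ (k + 1) = ((b : ℝ) * a k + b) / (b : ℝ) ^ (k + 1 + 1) := by
      rw [pow_succ (b : ℝ) (k + 1)]; field_simp
    rw [e1, e2]
    have hpos : (0 : ℝ) < (b : ℝ) ^ (k + 1 + 1) := by positivity
    refine ⟨le_trans (div_le_div_of_nonneg_right (by linarith) hpos.le) hy.1,
      hy.2.trans (div_le_div_of_nonneg_right (by linarith) hpos.le)⟩
  have hne : (⋂ k, I k).Nonempty := by
    refine IsCompact.nonempty_iInter_of_sequence_nonempty_isCompact_isClosed I hI ?_ isCompact_Icc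
      fun k => isClosed_Icc
    intro k
    refine Set.nonempty_Icc.2 ?_
    have hpos : (0 : ℝ) < (b : ℝ) ^ (k + 1) := by positivity
    exact div_le_div_of_nonneg_right (by linarith) hpos.le
  obtain ⟨x, hx⟩ := hne
  rw [Set.mem_iInter] at hx
  have hx0 := hx 0
  simp only [I, ha0, Set.mem_Icc] at hx0
  have hb1 : (1 : ℝ) < b := by
    have : 1 < b := by omega
    exact_mod_cast this
  refine ⟨x, ?_, ?_, ?_⟩
  · have := hx0.1
    simpa using this
  · refine hx0.2.trans_lt ?_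
    simp only [Int.cast_zero, zero_add, pow_one]
    exact (div_lt_one hb0).2 hb1
  · have key : ∀ k, ∃ y : ℝ, ((b : ℝ) * (a k : ℝ) + (d k (a k) : ℝ)) ≤ y ∧
        y ≤ (b : ℝ) * (a k : ℝ) + (d k (a k) : ℝ) + 1 ∧
        y / (b : ℝ) ^ (k + 2) = x := by
      intro k
      have h := hx (k + 1)
      simp only [I, Set.mem_Icc] at h
      have h2 : ((a (k + 1) : ℤ) : ℝ) = (b : ℝ) * a k + (d k (a k) : ℝ) := by
        rw [ha k]; push_cast; ring
      rw [h2] at h
      have hpos : (0 : ℝ) < (b : ℝ) ^ (k + 2) := by positivity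
      refine ⟨x * (b : ℝ) ^ (k + 2), ?_, ?_, ?_⟩
      · exact (div_le_iff₀ hpos).1 h.1
      · exact (le_div_iff₀ hpos).1 h.2
      · field_simp
    constructor
    · intro k
      obtain ⟨y, h1, h2, h3⟩ := key k
      rw [← h3]
      exact (hd2 k (a k) y h1 h2).2
    · intro k s hs n
      obtain ⟨y, h1, h2, h3⟩ := key k
      rw [← h3]
      exact (hd2 k (a k) y h1 h2).1 s hs n

end Pool.Agent.Q68.RF
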