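import Mathlib

/-!
# Random subsets of the semigroup which are finite unions of lacunary sets
-/

set_option autoImplicit false
set_option linter.unusedSectionVars false

open MeasureTheory Filter Topology ProbabilityTheory

namespace Pool.Agent.Q68.RF

/-- The pairs of exponents with `2 ^ k ≤ p ^ i q ^ j < 2 ^ (k + 1)`. -/
def win (p q k : ℕ) : Finset (ℕ × ℕ) :=
  (Finset.range (k + 1) ×ˢ Finset.range (k + 1)).filter fun u =>
    2 ^ k ≤ p ^ u.1 * q ^ u.2 ∧ p ^ u.1 * q ^ u.2 < 2 ^ (k + 1)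

theorem mem_win {p q k : ℕ} {u : ℕ × ℕ} (h : u ∈ win p q k) :
    2 ^ k ≤ p ^ u.1 * q ^ u.2 ∧ p ^ u.1 * q ^ u.2 < 2 ^ (k + 1) := (Finset.mem_filter.1 h).2

theorem mem_win_of {p q k : ℕ} (hp : 2 ≤ p) (hq : 2 ≤ q) {u : ℕ × ℕ}
    (h1 : 2 ^ k ≤ p ^ u.1 * q ^ u.2) (h2 : p ^ u.1 * q ^ u.2 < 2 ^ (k + 1)) : u ∈ win p q k := by
  have hp1 : 1 ≤ p ^ u.1 := Nat.one_le_pow _ _ (by omega)
  have hq1 : 1 ≤ q ^ u.2 := Nat.one_le_pow _ _ (by omega)
  have h3 : 2 ^ u.1 ≤ p ^ u.1 * q ^ u.2 :=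
    (Nat.pow_le_pow_left hp _).trans (Nat.le_mul_of_pos_right _ hq1)
  have h4 : 2 ^ u.2 ≤ p ^ u.1 * q ^ u.2 :=
    (Nat.pow_le_pow_left hq _).trans (Nat.le_mul_of_pos_left _ hp1)
  have h5 : u.1 < k + 1 := (Nat.pow_lt_pow_iff_right (by norm_num : 1 < 2)).1 (h3.trans_lt h2)
  have h6 : u.2 < k + 1 := (Nat.pow_lt_pow_iff_right (by norm_num : 1 < 2)).1 (h4.trans_lt h2)
  unfold win
  rw [Finset.mem_filter, Finset.mem_product, Finset.mem_range, Finset.mem_range]
  exact ⟨⟨h5, h6⟩, h1, h2⟩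

theorem win_card {p q : ℕ} (hp : 2 ≤ p) (k : ℕ) : (win p q k).card ≤ k + 1 := by
  have h : ((win p q k).image Prod.snd).card = (win p q k).card := by
    apply Finset.card_image_of_injOn
    have key : ∀ u ∈ win p q k, ∀ v ∈ win p q k, u.2 = v.2 → ¬ u.1 < v.1 := by
      intro u hu v hv huv hlt
      have h1 := mem_win hu
      have h2 := mem_win hv
      have h3 : p ^ u.1 * 2 ≤ p ^ v.1 := by
        calc p ^ u.1 * 2 ≤ p ^ u.1 * p := Nat.mul_le_mul_left _ hp
          _ = p ^ (u.1 + 1) := (pow_succ _ _).symm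
          _ ≤ p ^ v.1 := Nat.pow_le_pow_right (by omega) hlt
      have h4 : p ^ u.1 * 2 * q ^ v.2 ≤ p ^ v.1 * q ^ v.2 := Nat.mul_le_mul_right _ h3
      have h5 : 2 * 2 ^ k ≤ p ^ u.1 * 2 * q ^ v.2 := by
        rw [← huv]
        nlinarith [h1.1]
      have h6 := h2.2
      rw [pow_succ] at h6
      omega
    intro u hu v hv huv
    have h1 := key u hu v hv huv
    have h2 := key v hv u hu huv.symm
    exact Prod.ext (by omega) huv
  rw [← h]
  have h2 : (win p q k).image Prod.snd ⊆ Finset.range (k + 1) := by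
    intro j hj
    obtain ⟨u, hu, rfl⟩ := Finset.mem_image.1 hj
    have h3 := (Finset.mem_filter.1 hu).1
    rw [Finset.mem_product] at h3
    exact h3.2
  exact (Finset.card_le_card h2).trans (by rw [Finset.card_range])

theorem win_size {p q D : ℕ} (hD : 1 ≤ D) (hpD : p ≤ 2 ^ D) (hqD : q ≤ 2 ^ D) {k : ℕ} {u : ℕ × ℕ}
    (hu : u ∈ win p q k) : k + 1 ≤ D * (1 + u.1 + u.2) := by
  have h1 := (mem_win hu).1
  have h2 : p ^ u.1 * q ^ u.2 ≤ 2 ^ (D * (u.1 + u.2)) := by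
    calc p ^ u.1 * q ^ u.2 ≤ (2 ^ D) ^ u.1 * (2 ^ D) ^ u.2 :=
          Nat.mul_le_mul (Nat.pow_le_pow_left hpD _) (Nat.pow_le_pow_left hqD _)
      _ = 2 ^ (D * (u.1 + u.2)) := by rw [← pow_add, ← pow_mul]
  have h3 : k ≤ D * (u.1 + u.2) := (Nat.pow_le_pow_iff_right (by norm_num : 1 < 2)).1 (h1.trans h2)
  nlinarith

variable {Ω : Type*} [MeasurableSpace Ω] {P : Measure Ω} [IsProbabilityMeasure P]

open Classical in
theorem window_bound {p q : ℕ} (hp : 2 ≤ p) (hq : 2 ≤ q) {A : ℕ × ℕ → Set Ω}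
    (hind : iIndepSet A P) {α C : ℝ} (hα : 1 < α)
    (hP : ∀ u : ℕ × ℕ, P.real (A u) ≤ C * (1 + u.1 + u.2 : ℝ) ^ (-α)) :
    ∀ᵐ ω ∂P, ∃ M : ℕ, ∀ k, ((win p q k).filter fun u => ω ∈ A u).card ≤ M := by
  -- a common bound for the two bases
  obtain ⟨D, hD, hpD, hqD⟩ : ∃ D : ℕ, 1 ≤ D ∧ p ≤ 2 ^ D ∧ q ≤ 2 ^ D :=
    ⟨p + q, by omega, Nat.lt_two_pow_self.le.trans (Nat.pow_le_pow_right (by norm_num) (by omega)),
      Nat.lt_two_pow_self.le.trans (Nat.pow_le_pow_right (by norm_num) (by omega))⟩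
  obtain ⟨m, hm⟩ := exists_nat_gt (1 / (α - 1))
  have hα1 : 0 < α - 1 := by linarith
  rw [div_lt_iff₀ hα1] at hm
  have hC : 0 ≤ C := by
    have h := hP (0, 0)
    have h0 : 0 ≤ P.real (A (0, 0)) := measureReal_nonneg
    simp only [Nat.cast_zero, add_zero, Real.one_rpow, mul_one] at h
    linarith
  have hDR : (0 : ℝ) < D := by exact_mod_cast hD
  set C' : ℝ := C * (D : ℝ) ^ α with hC'
  have hC'0 : 0 ≤ C' := by positivity
  have hPw : ∀ k, ∀ u ∈ win p q k, P.real (A u) ≤ C' * ((k : ℝ) + 1) ^ (-α) := by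
    intro k u hu
    refine (hP u).trans ?_
    rw [hC', mul_assoc]
    refine mul_le_mul_of_nonneg_left ?_ hC
    have h1 : ((k : ℝ) + 1) / D ≤ 1 + u.1 + u.2 := by
      rw [div_le_iff₀ hDR]
      have := win_size hD hpD hqD hu
      have h2 : ((k + 1 : ℕ) : ℝ) ≤ ((D * (1 + u.1 + u.2) : ℕ) : ℝ) := by exact_mod_cast this
      push_cast at h2
      linarith
    have h2 : (1 + u.1 + u.2 : ℝ) ^ (-α) ≤ (((k : ℝ) + 1) / D) ^ (-α) :=
      Real.rpow_le_rpow_of_nonpos (by positivity) h1 (by linarith)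
    refine h2.trans (le_of_eq ?_)
    rw [Real.div_rpow (by positivity) hDR.le, Real.rpow_neg hDR.le α]
    field_simp
  set E : ℕ → Set Ω := fun k => ⋃ T ∈ (win p q k).powersetCard m, ⋂ u ∈ T, A u with hE
  have hPE : ∀ k, P.real (E k) ≤ C' ^ m * ((k : ℝ) + 1) ^ (-((α - 1) * m)) := by
    intro k
    have hk0 : (0 : ℝ) < (k : ℝ) + 1 := by positivity
    have h1 : ∀ T ∈ (win p q k).powersetCard m, P.real (⋂ u ∈ T, A u) ≤
        (C' * ((k : ℝ) + 1) ^ (-α)) ^ m := by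
      intro T hT
      obtain ⟨hT1, hT2⟩ := Finset.mem_powersetCard.1 hT
      have h2 : P.real (⋂ u ∈ T, A u) = ∏ u ∈ T, P.real (A u) := by
        unfold Measure.real
        rw [hind.meas_biInter, ENNReal.toReal_prod]
      rw [h2, ← hT2]
      exact (Finset.prod_le_prod (fun _ _ => measureReal_nonneg)
        (fun u hu => hPw k u (hT1 hu))).trans_eq (Finset.prod_const _)
    calc P.real (E k) ≤ ∑ T ∈ (win p q k).powersetCard m, P.real (⋂ u ∈ T, A u) :=
          measureReal_biUnion_finset_le _ _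
      _ ≤ ∑ T ∈ (win p q k).powersetCard m, (C' * ((k : ℝ) + 1) ^ (-α)) ^ m := Finset.sum_le_sum h1
      _ = ((win p q k).card.choose m : ℝ) * (C' * ((k : ℝ) + 1) ^ (-α)) ^ m := by
          rw [Finset.sum_const, Finset.card_powersetCard, nsmul_eq_mul]
      _ ≤ ((k : ℝ) + 1) ^ m * (C' * ((k : ℝ) + 1) ^ (-α)) ^ m := by
          refine mul_le_mul_of_nonneg_right ?_ (by positivity)
          have h3 : (win p q k).card.choose m ≤ (k + 1) ^ m :=
            (Nat.choose_le_pow _ _).trans (Nat.pow_le_pow_left (win_card hp k) _)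
          exact_mod_cast h3
      _ = _ := by
          rw [mul_pow, ← Real.rpow_natCast (((k : ℝ) + 1) ^ (-α)) m, ← Real.rpow_mul hk0.le,
            ← Real.rpow_natCast ((k : ℝ) + 1) m, mul_left_comm, ← Real.rpow_add hk0]
          congr 2
          ring
  have hsum : Summable fun k : ℕ => P.real (E k) := by
    have h1 : Summable fun n : ℕ => ((n : ℝ)) ^ (-((α - 1) * m)) :=
      Real.summable_nat_rpow.2 (by nlinarith)
    have h2 : Summable fun k : ℕ => ((k + 1 : ℕ) : ℝ) ^ (-((α - 1) * m)) :=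
      (summable_nat_add_iff 1).2 h1
    refine Summable.of_nonneg_of_le (fun k => measureReal_nonneg) hPE ?_
    refine (h2.mul_left (C' ^ m)).congr fun k => ?_
    push_cast
    rfl
  have h4 : ∑' k, P (E k) ≠ ⊤ := by
    have h5 : ∀ k, P (E k) = ENNReal.ofReal (P.real (E k)) := by
      intro k
      rw [ofReal_measureReal (measure_ne_top P _)]
    simp_rw [h5]
    rw [← ENNReal.ofReal_tsum_of_nonneg (fun k => measureReal_nonneg) hsum]
    exact ENNReal.ofReal_ne_top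
  filter_upwards [ae_eventually_notMem h4] with ω hω
  obtain ⟨k0, hk0⟩ := eventually_atTop.1 hω
  refine ⟨max m (k0 + 1), fun k => ?_⟩
  rcases le_or_gt k0 k with hk | hk
  · refine le_trans ?_ (le_max_left _ _)
    by_contra hlt
    rw [not_le] at hlt
    obtain ⟨T, hT1, hT2⟩ := Finset.exists_subset_card_eq hlt.le
    apply hk0 k hk
    simp only [hE, Set.mem_iUnion]
    refine ⟨T, Finset.mem_powersetCard.2 ⟨hT1.trans (Finset.filter_subset _ _), hT2⟩, ?_⟩
    rw [Set.mem_iInter₂]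
    intro u hu
    exact (Finset.mem_filter.1 (hT1 hu)).2
  · refine le_trans ?_ (le_max_right _ _)
    refine (Finset.card_le_card (Finset.filter_subset _ _)).trans ((win_card hp k).trans ?_)
    omega

end Pool.Agent.Q68.RF
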