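import Mathlib
import Pool.Agent.Q68.RF.Nest
import Pool.Agent.Q68.RF.Window
import Pool.Agent.Q68.RF.BC

/-!
# Uncountably many points with badly distributed orbits along a sparse subset
-/

set_option autoImplicit false
set_option linter.unusedSectionVars false

open MeasureTheory Filter Topology

namespace Pool.Agent.Q68.RF

theorem norm_nsmul_lower (s : ℕ) (x δ : ℝ) (h : ∀ n : ℤ, δ ≤ |(s : ℝ) * x - n|) :
    δ ≤ ‖s • (x : UnitAddCircle)‖ := by
  have e : s • (x : UnitAddCircle) = (((s : ℝ) * x : ℝ) : UnitAddCircle) := by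
    rw [← AddCircle.coe_nsmul, nsmul_eq_mul]
  rw [e, UnitAddCircle.norm_eq]
  exact h _

open Classical in
/-- If the dyadic windows of `S` are bounded, then there is `δ > 0` such that for every `d` there
is `δ' > 0` such that there are points avoiding any given sequence, for which all `s x`, `s ∈ S`, are
at distance at least `δ` from `0`, and all `d s x` at distance at least `δ'`. -/
theorem avoid {p q : ℕ} (hp : 2 ≤ p) (hq : 2 ≤ q) (S : Set (ℕ × ℕ)) (M : ℕ)
    (hM : ∀ k, ((win p q k).filter (· ∈ S)).card ≤ M) :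
    ∃ δ : ℝ, 0 < δ ∧ ∀ d : ℕ, 1 ≤ d → ∃ δ' : ℝ, 0 < δ' ∧ ∀ e : ℕ → ℝ,
      ∃ x : ℝ, 0 ≤ x ∧ x < 1 ∧ (∀ k, x ≠ e k) ∧ ∀ u ∈ S,
        δ ≤ ‖(p ^ u.1 * q ^ u.2) • (x : UnitAddCircle)‖ ∧
        δ' ≤ ‖(d * (p ^ u.1 * q ^ u.2)) • (x : UnitAddCircle)‖ := by
  -- the base
  obtain ⟨r, hr1, hr⟩ : ∃ r : ℕ, 1 ≤ r ∧ 4 * (2 * (r * M)) + 2 < 2 ^ r := by
    have h := tendsto_pow_const_div_const_pow_of_one_lt 1 (show (1 : ℝ) < 2 by norm_num)
    have h1 : ∀ᶠ r : ℕ in atTop, (r : ℝ) ^ 1 / 2 ^ r < 1 / (8 * M + 3) :=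
      h.eventually_lt_const (by positivity)
    obtain ⟨r, h2, h3⟩ := (h1.and (eventually_ge_atTop 1)).exists
    refine ⟨r, h3, ?_⟩
    have h3' : (1 : ℝ) ≤ r := by exact_mod_cast h3
    rw [pow_one, div_lt_div_iff₀ (by positivity) (by positivity), one_mul] at h2
    have h4 : ((4 * (2 * (r * M)) + 2 : ℕ) : ℝ) < ((2 ^ r : ℕ) : ℝ) := by
      push_cast
      nlinarith
    exact_mod_cast h4
  set b : ℕ := 2 ^ r with hb
  have hb0 : 0 < b := by positivity
  have hbR : (0 : ℝ) < b := by exact_mod_cast hb0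
  have hb1 : 1 < b := by omega
  -- the elements in the windows with base `b`
  set N : ℕ × ℕ → ℕ := fun u => p ^ u.1 * q ^ u.2 with hN
  set W : ℕ → Finset (ℕ × ℕ) := fun k =>
    (Finset.range r).biUnion fun l => (win p q (r * k + l)).filter (· ∈ S) with hW
  have hWcard : ∀ k, (W k).card ≤ r * M := by
    intro k
    refine Finset.card_biUnion_le.trans ?_
    refine (Finset.sum_le_card_nsmul _ _ M fun l _ => hM _).trans ?_
    rw [Finset.card_range, smul_eq_mul]
  have hWb : ∀ k, ∀ u ∈ W k, b ^ k ≤ N u ∧ N u < b ^ (k + 1) := by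
    intro k u hu
    obtain ⟨l, hl, hu'⟩ := Finset.mem_biUnion.1 hu
    rw [Finset.mem_range] at hl
    have h1 := mem_win (Finset.mem_filter.1 hu').1
    constructor
    · refine le_trans ?_ h1.1
      rw [hb, ← pow_mul]
      exact Nat.pow_le_pow_right (by norm_num) (by omega)
    · refine lt_of_lt_of_le h1.2 ?_
      rw [hb, ← pow_mul]
      refine Nat.pow_le_pow_right (by norm_num) ?_
      rw [mul_add, mul_one]
      omega
  have hNpos : ∀ u, 0 < N u := fun u => Nat.mul_pos (Nat.pow_pos (by omega)) (Nat.pow_pos (by omega))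
  have hWmem : ∀ u ∈ S, ∃ k, u ∈ W k := by
    intro u hu
    set l0 := Nat.log 2 (N u) with hl0
    refine ⟨l0 / r, ?_⟩
    rw [hW]
    simp only [Finset.mem_biUnion, Finset.mem_range, Finset.mem_filter]
    refine ⟨l0 % r, Nat.mod_lt _ (by omega), ?_, hu⟩
    rw [Nat.div_add_mod]
    exact mem_win_of hp hq (Nat.pow_log_le_self 2 (hNpos u).ne')
      (Nat.lt_pow_succ_log_self (by norm_num) _)
  refine ⟨1 / (2 * (b : ℝ) ^ 2), by positivity, fun d hd => ?_⟩
  -- `b ^ L ≥ d`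
  obtain ⟨L, hL⟩ : ∃ L : ℕ, d ≤ b ^ L := ⟨d, (Nat.lt_pow_self hb1).le⟩
  have hdR : (1 : ℝ) ≤ d := by exact_mod_cast hd
  refine ⟨1 / (2 * (b : ℝ) ^ (L + 2)), by positivity, fun e => ?_⟩
  set T : ℕ → Finset ℕ := fun k =>
    (W k).image N ∪ (if L ≤ k then (W (k - L)).image (fun u => d * N u) else ∅) with hT
  have hTcard : ∀ k, (T k).card ≤ 2 * (r * M) := by
    intro k
    refine (Finset.card_union_le _ _).trans ?_
    rw [two_mul]
    refine Nat.add_le_add (Finset.card_image_le.trans (hWcard k)) ?_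
    split_ifs
    · exact Finset.card_image_le.trans (hWcard _)
    · rw [Finset.card_empty]; exact Nat.zero_le _
  have hTb : ∀ k, ∀ t ∈ T k, 0 < t ∧ t < b ^ (k + 1) := by
    intro k t ht
    rcases Finset.mem_union.1 ht with ht | ht
    · obtain ⟨u, hu, rfl⟩ := Finset.mem_image.1 ht
      exact ⟨hNpos u, (hWb k u hu).2⟩
    · split_ifs at ht with hk
      · obtain ⟨u, hu, rfl⟩ := Finset.mem_image.1 ht
        refine ⟨Nat.mul_pos hd (hNpos u), ?_⟩
        have h1 := (hWb _ u hu).2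
        calc d * N u < d * b ^ (k - L + 1) := Nat.mul_lt_mul_of_pos_left h1 hd
          _ ≤ b ^ L * b ^ (k - L + 1) := Nat.mul_le_mul_right _ hL
          _ = b ^ (k + 1) := by rw [← pow_add]; congr 1; omega
      · exact absurd ht (Finset.notMem_empty _)
  obtain ⟨x, hx0, hx1, hxe, hx⟩ := nest b (2 * (r * M)) hr T hTcard hTb e
  refine ⟨x, hx0, hx1, hxe, fun u hu => ?_⟩
  obtain ⟨k, hk⟩ := hWmem u hu
  have hNk := hWb k u hk
  have hNR : (b : ℝ) ^ k ≤ N u := by exact_mod_cast hNk.1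
  constructor
  · refine norm_nsmul_lower _ _ _ fun n => ?_
    have h1 := hx k (N u) (Finset.mem_union_left _ (Finset.mem_image_of_mem N hk)) n
    have hN0 : (0 : ℝ) < N u := by exact_mod_cast hNpos u
    have h2 : |((N u : ℕ) : ℝ) * x - n| = N u * |x - n / N u| := by
      rw [← abs_of_pos hN0, ← abs_mul, abs_of_pos hN0]
      congr 1
      field_simp
    change _ ≤ |((N u : ℕ) : ℝ) * x - n|
    rw [h2]
    calc 1 / (2 * (b : ℝ) ^ 2) = (b : ℝ) ^ k * (1 / (2 * (b : ℝ) ^ (k + 2))) := by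
          rw [pow_add]; field_simp
      _ ≤ N u * |x - n / N u| := mul_le_mul hNR h1 (by positivity) hN0.le
  · refine norm_nsmul_lower _ _ _ fun n => ?_
    have hmem : d * N u ∈ T (k + L) := by
      refine Finset.mem_union_right _ ?_
      rw [if_pos (Nat.le_add_left L k), Nat.add_sub_cancel]
      exact Finset.mem_image_of_mem (fun u => d * N u) hk
    have h1 := hx (k + L) (d * N u) hmem n
    have hN0 : (0 : ℝ) < ((d * N u : ℕ) : ℝ) := by exact_mod_cast Nat.mul_pos hd (hNpos u)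
    have h2 : |((d * N u : ℕ) : ℝ) * x - n| = ((d * N u : ℕ) : ℝ) * |x - n / ((d * N u : ℕ) : ℝ)| := by
      rw [← abs_of_pos hN0, ← abs_mul, abs_of_pos hN0]
      congr 1
      field_simp
    change _ ≤ |((d * N u : ℕ) : ℝ) * x - n|
    rw [h2]
    have h3 : (b : ℝ) ^ k ≤ ((d * N u : ℕ) : ℝ) := by
      push_cast
      calc (b : ℝ) ^ k ≤ N u := hNR
        _ = 1 * N u := (one_mul _).symm
        _ ≤ d * N u := mul_le_mul_of_nonneg_right hdR (by positivity)
    calc 1 / (2 * (b : ℝ) ^ (L + 2)) = (b : ℝ) ^ k * (1 / (2 * (b : ℝ) ^ (k + L + 2))) := by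
          rw [show k + L + 2 = k + (L + 2) by ring, pow_add (b : ℝ) k]; field_simp
      _ ≤ ((d * N u : ℕ) : ℝ) * |x - n / ((d * N u : ℕ) : ℝ)| :=
          mul_le_mul h3 h1 (by positivity) hN0.le

end Pool.Agent.Q68.RF
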