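import Mathlib
import Pool.Agent.Q68.RF.BC

/-!
# Dense orbits of all irrational points along a random subset of the semigroup
-/

set_option autoImplicit false

open MeasureTheory Filter Topology ProbabilityTheory

namespace Pool.Agent.Q68.RF

variable {Ω : Type*} [MeasurableSpace Ω] {P : Measure Ω} [IsProbabilityMeasure P]

/-- The square of the pairs of exponents at most `n`. -/
def sq (n : ℕ) : Finset (ℕ × ℕ) := Finset.range (n + 1) ×ˢ Finset.range (n + 1)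

theorem mem_sq {n : ℕ} {u : ℕ × ℕ} : u ∈ sq n ↔ u.1 ≤ n ∧ u.2 ≤ n := by
  unfold sq
  rw [Finset.mem_product, Finset.mem_range, Finset.mem_range]
  omega

theorem pow_le_of_mem_sq {p q n : ℕ} (hp : 1 ≤ p) (hq : 1 ≤ q) {u : ℕ × ℕ} (hu : u ∈ sq n) :
    p ^ u.1 * q ^ u.2 ≤ (p * q) ^ n := by
  rw [mem_sq] at hu
  rw [mul_pow]
  exact Nat.mul_le_mul (Nat.pow_le_pow_right hp hu.1) (Nat.pow_le_pow_right hq hu.2)

theorem ball_case {p q : ℕ} (hp : 1 ≤ p) (hq : 1 ≤ q) {A : ℕ × ℕ → Set Ω}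
    (hA : ∀ u, MeasurableSet (A u)) (hind : iIndepSet A P) {α c κ c0 : ℝ} (hc : 0 < c)
    (hc0 : 0 < c0) (hα0 : 0 ≤ α) (hακ : α + κ < 1)
    (hP : ∀ u : ℕ × ℕ, c * (1 + u.1 + u.2 : ℝ) ^ (-α) ≤ P.real (A u))
    (z : UnitAddCircle) {ρ : ℝ} (hρ : 0 < ρ) :
    ∀ᵐ ω ∂P, ∀ᶠ n : ℕ in atTop, ∀ x : UnitAddCircle,
      c0 * (n : ℝ) ^ (2 - κ) ≤
        ({u : ℕ × ℕ | u.1 ≤ n ∧ u.2 ≤ n ∧ (p ^ u.1 * q ^ u.2) • x ∈ Metric.ball z ρ}.ncard : ℝ) →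
      c0 * (n : ℝ) ^ (2 - κ) * (c * (1 + 2 * n : ℝ) ^ (-α)) / 2 ≤
        ({u : ℕ × ℕ | u.1 ≤ n ∧ u.2 ≤ n ∧ ω ∈ A u ∧
          (p ^ u.1 * q ^ u.2) • x ∈ Metric.ball z (3 * ρ)}.ncard : ℝ) := by
  classical
  set w : ℕ → ℝ := fun n => c0 * (n : ℝ) ^ (2 - κ) * (c * (1 + 2 * n : ℝ) ^ (-α)) with hw
  set V : ℕ → UnitAddCircle → Finset (ℕ × ℕ) := fun n y =>
    (sq n).filter fun u => (p ^ u.1 * q ^ u.2) • y ∈ Metric.ball z (2 * ρ) with hV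
  set B : ℕ → UnitAddCircle → Set Ω := fun n y =>
    if c0 * (n : ℝ) ^ (2 - κ) ≤ ((V n y).card : ℝ) then
      {ω | ∑ u ∈ V n y, (A u).indicator (fun _ => (1 : ℝ)) ω ≤ w n / 2} else ∅ with hB
  set K : ℕ := ⌈1 / ρ⌉₊ with hK
  have hK1 : 1 ≤ K := Nat.one_le_iff_ne_zero.2 (by
    rw [hK]; exact (Nat.ceil_pos.2 (by positivity)).ne')
  have hKρ : 1 / (K : ℝ) ≤ ρ := by
    have h1 : 1 / ρ ≤ K := Nat.le_ceil _
    rw [div_le_iff₀ (by exact_mod_cast hK1)]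
    rw [div_le_iff₀ hρ] at h1
    linarith
  have hpq1 : 1 ≤ p * q := Nat.mul_pos hp hq
  have hθ : Tendsto (fun n : ℕ => w n / 16 / n) atTop atTop := by
    have h1 : Tendsto (fun n : ℕ => (n : ℝ) ^ (1 - κ - α)) atTop atTop :=
      (tendsto_rpow_atTop (by linarith)).comp tendsto_natCast_atTop_atTop
    have h2 : Tendsto (fun n : ℕ => (c0 * c * (3 : ℝ) ^ (-α) / 16) * (n : ℝ) ^ (1 - κ - α))
        atTop atTop := h1.const_mul_atTop (by positivity)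
    refine tendsto_atTop_mono' _ ?_ h2
    filter_upwards [eventually_ge_atTop 1] with n hn
    have hn1 : (1 : ℝ) ≤ n := by exact_mod_cast hn
    have hn0 : (0 : ℝ) < n := by linarith
    have h3 : (3 * n : ℝ) ^ (-α) ≤ (1 + 2 * n : ℝ) ^ (-α) :=
      Real.rpow_le_rpow_of_nonpos (by linarith) (by linarith) (by linarith)
    rw [Real.mul_rpow (by norm_num) hn0.le] at h3
    have h4 : (n : ℝ) ^ (1 - κ - α) = (n : ℝ) ^ (2 - κ) * (n : ℝ) ^ (-α) / n := by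
      rw [← Real.rpow_add hn0]
      have e : (1 - κ - α) = (2 - κ + -α) - 1 := by ring
      rw [e, Real.rpow_sub_one hn0.ne']
    rw [h4]
    simp only [hw]
    rw [le_div_iff₀ hn0]
    have e : c0 * c * (3 : ℝ) ^ (-α) / 16 * ((n : ℝ) ^ (2 - κ) * (n : ℝ) ^ (-α) / n) * n =
        c0 * (n : ℝ) ^ (2 - κ) * (c * ((3 : ℝ) ^ (-α) * (n : ℝ) ^ (-α))) / 16 := by
      field_simp
    rw [e]
    gcongr
  have hbc := bc (P := P) (fun n => grid (K * (p * q) ^ n)) B ((p * q : ℕ) : ℝ) K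
    (by exact_mod_cast hpq1) (Nat.cast_nonneg _) (fun n => by
      have := grid_card (K * (p * q) ^ n)
      calc ((grid (K * (p * q) ^ n)).card : ℝ) ≤ ((K * (p * q) ^ n : ℕ) : ℝ) := by exact_mod_cast this
        _ = _ := by push_cast; ring) (fun n => w n / 16) hθ (by
      intro n y _
      simp only [hB]
      split_ifs with h
      · refine lower (P := P) hA hind (V n y) (w n) ?_
        have h1 : ∀ u ∈ V n y, c * (1 + 2 * n : ℝ) ^ (-α) ≤ P.real (A u) := by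
          intro u hu
          refine le_trans ?_ (hP u)
          have hu' := (Finset.mem_filter.1 hu).1
          rw [mem_sq] at hu'
          have h2 : (u.1 : ℝ) ≤ n := by exact_mod_cast hu'.1
          have h3 : (u.2 : ℝ) ≤ n := by exact_mod_cast hu'.2
          refine mul_le_mul_of_nonneg_left ?_ hc.le
          exact Real.rpow_le_rpow_of_nonpos (by positivity) (by linarith) (by linarith)
        calc w n ≤ ((V n y).card : ℝ) * (c * (1 + 2 * n : ℝ) ^ (-α)) :=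
              mul_le_mul_of_nonneg_right h (by positivity)
          _ = ∑ u ∈ V n y, c * (1 + 2 * n : ℝ) ^ (-α) := by
              rw [Finset.sum_const, nsmul_eq_mul]
          _ ≤ _ := Finset.sum_le_sum h1
      · rw [measureReal_empty]
        exact Real.exp_nonneg _)
  filter_upwards [hbc] with ω hω
  filter_upwards [hω] with n hn x hx
  obtain ⟨y, hy, hxy⟩ := exists_mem_grid (K * (p * q) ^ n) (Nat.mul_pos hK1 (Nat.pow_pos hpq1)) x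
  have hclose : ∀ u ∈ sq n, dist ((p ^ u.1 * q ^ u.2) • x) ((p ^ u.1 * q ^ u.2) • y) ≤ ρ := by
    intro u hu
    refine (nsmul_close _ x y).trans ?_
    have h1 : ((p ^ u.1 * q ^ u.2 : ℕ) : ℝ) ≤ (((p * q) ^ n : ℕ) : ℝ) := by
      exact_mod_cast pow_le_of_mem_sq hp hq hu
    have hpos : (0 : ℝ) < (((p * q) ^ n : ℕ) : ℝ) := by exact_mod_cast Nat.pow_pos hpq1
    have hK0 : (0 : ℝ) < K := by exact_mod_cast hK1
    calc ((p ^ u.1 * q ^ u.2 : ℕ) : ℝ) * ‖x - y‖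
        ≤ (((p * q) ^ n : ℕ) : ℝ) * (1 / ((K * (p * q) ^ n : ℕ) : ℝ)) :=
          mul_le_mul h1 hxy (norm_nonneg _) hpos.le
      _ = 1 / K := by
          rw [Nat.cast_mul]
          field_simp
      _ ≤ ρ := hKρ
  have hset : {u : ℕ × ℕ | u.1 ≤ n ∧ u.2 ≤ n ∧ (p ^ u.1 * q ^ u.2) • x ∈ Metric.ball z ρ} ⊆
      (V n y : Set (ℕ × ℕ)) := by
    rintro u ⟨h1, h2, h3⟩
    have hu : u ∈ sq n := mem_sq.2 ⟨h1, h2⟩
    rw [Finset.mem_coe, hV, Finset.mem_filter]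
    refine ⟨hu, ?_⟩
    rw [Metric.mem_ball] at h3 ⊢
    have h4 := hclose u hu
    rw [dist_comm] at h4
    calc dist ((p ^ u.1 * q ^ u.2) • y) z ≤ _ := dist_triangle _ ((p ^ u.1 * q ^ u.2) • x) _
      _ < ρ + ρ := by linarith
      _ = 2 * ρ := by ring
  have hcard : c0 * (n : ℝ) ^ (2 - κ) ≤ ((V n y).card : ℝ) := by
    refine hx.trans ?_
    have := Set.ncard_le_ncard hset (Finset.finite_toSet _)
    rw [Set.ncard_coe_finset] at this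
    exact_mod_cast this
  have hnB := hn y hy
  simp only [hB] at hnB
  rw [if_pos hcard] at hnB
  simp only [Set.mem_ofPred_eq, not_le] at hnB
  refine hnB.le.trans ?_
  have h5 : ∑ u ∈ V n y, (A u).indicator (fun _ => (1 : ℝ)) ω =
      (((V n y).filter fun u => ω ∈ A u).card : ℝ) := by
    rw [Finset.card_filter]
    push_cast
    refine Finset.sum_congr rfl fun u _ => ?_
    by_cases h : ω ∈ A u
    · rw [Set.indicator_of_mem h, if_pos h]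
    · rw [Set.indicator_of_notMem h, if_neg h]
  rw [h5]
  have h6 : (((V n y).filter fun u => ω ∈ A u : Finset (ℕ × ℕ)) : Set (ℕ × ℕ)) ⊆
      {u : ℕ × ℕ | u.1 ≤ n ∧ u.2 ≤ n ∧ ω ∈ A u ∧
          (p ^ u.1 * q ^ u.2) • x ∈ Metric.ball z (3 * ρ)} := by
    intro u hu
    rw [Finset.mem_coe, Finset.mem_filter] at hu
    obtain ⟨hu1, hu2⟩ := hu
    rw [hV, Finset.mem_filter] at hu1
    have h7 := mem_sq.1 hu1.1
    refine ⟨h7.1, h7.2, hu2, ?_⟩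
    have h8 := hclose u hu1.1
    have h9 := hu1.2
    rw [Metric.mem_ball] at h9 ⊢
    calc dist ((p ^ u.1 * q ^ u.2) • x) z ≤ _ := dist_triangle _ ((p ^ u.1 * q ^ u.2) • y) _
      _ < ρ + 2 * ρ := by linarith
      _ = 3 * ρ := by ring
  have hfin : {u : ℕ × ℕ | u.1 ≤ n ∧ u.2 ≤ n ∧ ω ∈ A u ∧
      (p ^ u.1 * q ^ u.2) • x ∈ Metric.ball z (3 * ρ)}.Finite :=
    (Finset.finite_toSet (sq n)).subset fun u hu => Finset.mem_coe.2 (mem_sq.2 ⟨hu.1, hu.2.1⟩)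
  have h10 := Set.ncard_le_ncard h6 hfin
  rw [Set.ncard_coe_finset] at h10
  exact_mod_cast h10

theorem dense_of_io {p q : ℕ} (hp : 1 ≤ p) (hq : 1 ≤ q) {A : ℕ × ℕ → Set Ω}
    (hA : ∀ u, MeasurableSet (A u)) (hind : iIndepSet A P) {α c κ : ℝ} (hc : 0 < c)
    (hα0 : 0 ≤ α) (hακ : α + κ < 1)
    (hP : ∀ u : ℕ × ℕ, c * (1 + u.1 + u.2 : ℝ) ^ (-α) ≤ P.real (A u))
    (hio : ∀ U : Set UnitAddCircle, IsOpen U → U.Nonempty → ∃ c0 : ℝ, 0 < c0 ∧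
      ∀ x : ℝ, Irrational x → ∃ᶠ n : ℕ in atTop, c0 * (n : ℝ) ^ (2 - κ) ≤
        ({u : ℕ × ℕ | u.1 ≤ n ∧ u.2 ≤ n ∧
          (p ^ u.1 * q ^ u.2) • (x : UnitAddCircle) ∈ U}.ncard : ℝ)) :
    ∀ᵐ ω ∂P, ∀ x : ℝ, Irrational x → ∀ U : Set UnitAddCircle, IsOpen U → U.Nonempty →
      ∀ β : ℝ, β < 2 - κ - α → ∃ᶠ n : ℕ in atTop, (n : ℝ) ^ β ≤
        ({u : ℕ × ℕ | u.1 ≤ n ∧ u.2 ≤ n ∧ ω ∈ A u ∧
          (p ^ u.1 * q ^ u.2) • (x : UnitAddCircle) ∈ U}.ncard : ℝ) := by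
  have hball : ∀ (k m : ℕ), ∃ c0 : ℝ, 0 < c0 ∧ ∀ x : ℝ, Irrational x →
      ∃ᶠ n : ℕ in atTop, c0 * (n : ℝ) ^ (2 - κ) ≤
        ({u : ℕ × ℕ | u.1 ≤ n ∧ u.2 ≤ n ∧ (p ^ u.1 * q ^ u.2) • (x : UnitAddCircle) ∈
          Metric.ball (TopologicalSpace.denseSeq UnitAddCircle k) (1 / ((m : ℝ) + 1))}.ncard : ℝ) :=
    fun k m => hio _ Metric.isOpen_ball ⟨_, Metric.mem_ball_self (by positivity)⟩
  choose c0 hc0 hc0io using hball
  have hall : ∀ᵐ ω ∂P, ∀ k m : ℕ, ∀ᶠ n : ℕ in atTop, ∀ x : UnitAddCircle,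
      c0 k m * (n : ℝ) ^ (2 - κ) ≤
        ({u : ℕ × ℕ | u.1 ≤ n ∧ u.2 ≤ n ∧ (p ^ u.1 * q ^ u.2) • x ∈
          Metric.ball (TopologicalSpace.denseSeq UnitAddCircle k) (1 / ((m : ℝ) + 1))}.ncard : ℝ) →
      c0 k m * (n : ℝ) ^ (2 - κ) * (c * (1 + 2 * n : ℝ) ^ (-α)) / 2 ≤
        ({u : ℕ × ℕ | u.1 ≤ n ∧ u.2 ≤ n ∧ ω ∈ A u ∧ (p ^ u.1 * q ^ u.2) • x ∈
          Metric.ball (TopologicalSpace.denseSeq UnitAddCircle k)
            (3 * (1 / ((m : ℝ) + 1)))}.ncard : ℝ) := by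
    rw [ae_all_iff]
    intro k
    rw [ae_all_iff]
    intro m
    exact ball_case hp hq hA hind hc (hc0 k m) hα0 hακ hP _ (by positivity)
  filter_upwards [hall] with ω hω x hx U hU hne β hβ
  obtain ⟨x0, hx0⟩ := hne
  obtain ⟨ε, hε, hεU⟩ := Metric.isOpen_iff.1 hU x0 hx0
  obtain ⟨m, hm⟩ := exists_nat_one_div_lt (show (0 : ℝ) < ε / 4 by positivity)
  have hm0 : (0 : ℝ) < 1 / ((m : ℝ) + 1) := by positivity
  obtain ⟨k, hk⟩ := (TopologicalSpace.denseRange_denseSeq UnitAddCircle).exists_dist_lt x0 hm0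
  have hsub : Metric.ball (TopologicalSpace.denseSeq UnitAddCircle k) (3 * (1 / ((m : ℝ) + 1))) ⊆ U := by
    intro y hy
    apply hεU
    rw [Metric.mem_ball] at hy ⊢
    rw [dist_comm] at hk
    calc dist y x0 ≤ _ := dist_triangle _ (TopologicalSpace.denseSeq UnitAddCircle k) _
      _ < 3 * (1 / ((m : ℝ) + 1)) + 1 / ((m : ℝ) + 1) := add_lt_add hy hk
      _ < ε := by linarith
  have habs : ∀ᶠ n : ℕ in atTop, (n : ℝ) ^ β ≤
      c0 k m * (n : ℝ) ^ (2 - κ) * (c * (1 + 2 * n : ℝ) ^ (-α)) / 2 := by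
    have h1 : Tendsto (fun n : ℕ => (n : ℝ) ^ (2 - κ - α - β)) atTop atTop :=
      (tendsto_rpow_atTop (by linarith)).comp tendsto_natCast_atTop_atTop
    have h2 : Tendsto (fun n : ℕ => (c0 k m * c * (3 : ℝ) ^ (-α) / 2) * (n : ℝ) ^ (2 - κ - α - β))
        atTop atTop := h1.const_mul_atTop (by have := hc0 k m; positivity)
    filter_upwards [h2.eventually_ge_atTop 1, eventually_ge_atTop 1] with n hn hn'
    have hn1 : (1 : ℝ) ≤ n := by exact_mod_cast hn'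
    have hn0 : (0 : ℝ) < n := by linarith
    have h3 : (3 * n : ℝ) ^ (-α) ≤ (1 + 2 * n : ℝ) ^ (-α) :=
      Real.rpow_le_rpow_of_nonpos (by linarith) (by linarith) (by linarith)
    rw [Real.mul_rpow (by norm_num) hn0.le] at h3
    have h4 : (n : ℝ) ^ (2 - κ - α - β) * (n : ℝ) ^ β = (n : ℝ) ^ (2 - κ) * (n : ℝ) ^ (-α) := by
      rw [← Real.rpow_add hn0, ← Real.rpow_add hn0]
      congr 1
      ring
    calc (n : ℝ) ^ β = 1 * (n : ℝ) ^ β := (one_mul _).symm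
      _ ≤ (c0 k m * c * (3 : ℝ) ^ (-α) / 2) * (n : ℝ) ^ (2 - κ - α - β) * (n : ℝ) ^ β :=
          mul_le_mul_of_nonneg_right hn (Real.rpow_nonneg hn0.le _)
      _ = c0 k m * (n : ℝ) ^ (2 - κ) * (c * ((3 : ℝ) ^ (-α) * (n : ℝ) ^ (-α))) / 2 := by
          rw [mul_assoc, h4]; ring
      _ ≤ _ := by
          have := (hc0 k m).le
          gcongr
  refine (((hc0io k m x hx).and_eventually (hω k m)).and_eventually habs).mono ?_
  rintro n ⟨⟨h1, h2⟩, h3⟩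
  refine h3.trans ((h2 _ h1).trans ?_)
  have hfin : {u : ℕ × ℕ | u.1 ≤ n ∧ u.2 ≤ n ∧ ω ∈ A u ∧
      (p ^ u.1 * q ^ u.2) • (x : UnitAddCircle) ∈ U}.Finite :=
    (Finset.finite_toSet (sq n)).subset fun u hu => Finset.mem_coe.2 (mem_sq.2 ⟨hu.1, hu.2.1⟩)
  have hss : {u : ℕ × ℕ | u.1 ≤ n ∧ u.2 ≤ n ∧ ω ∈ A u ∧
      (p ^ u.1 * q ^ u.2) • (x : UnitAddCircle) ∈
          Metric.ball (TopologicalSpace.denseSeq UnitAddCircle k) (3 * (1 / ((m : ℝ) + 1)))} ⊆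
      {u : ℕ × ℕ | u.1 ≤ n ∧ u.2 ≤ n ∧ ω ∈ A u ∧
        (p ^ u.1 * q ^ u.2) • (x : UnitAddCircle) ∈ U} :=
    fun u hu => ⟨hu.1, hu.2.1, hu.2.2.1, hsub hu.2.2.2⟩
  have h4 := Set.ncard_le_ncard hss hfin
  exact_mod_cast h4

end Pool.Agent.Q68.RF
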