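import Mathlib
import Pool.Agent.Q68.RF.Dense

/-!
# A law of large numbers along random subsets of the semigroup, uniform over all points
-/

set_option autoImplicit false
set_option linter.unusedSectionVars false

open MeasureTheory Filter Topology ProbabilityTheory

namespace Pool.Agent.Q68.RF

variable {Ω : Type*} [MeasurableSpace Ω] {P : Measure Ω} [IsProbabilityMeasure P]

/-- The box of the pairs of exponents less than `n`. -/
def box (n : ℕ) : Finset (ℕ × ℕ) := Finset.range n ×ˢ Finset.range n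

theorem mem_box {n : ℕ} {u : ℕ × ℕ} : u ∈ box n ↔ u.1 < n ∧ u.2 < n := by
  unfold box
  rw [Finset.mem_product, Finset.mem_range, Finset.mem_range]

theorem box_sub_sq (n : ℕ) {u : ℕ × ℕ} (hu : u ∈ box n) : u ∈ sq n := by
  rw [mem_box] at hu
  rw [mem_sq]
  omega

/-- The total weight. -/
noncomputable def wt (P : Measure Ω) (A : ℕ × ℕ → Set Ω) (n : ℕ) : ℝ := ∑ u ∈ box n, P.real (A u)

theorem wt_nonneg (A : ℕ × ℕ → Set Ω) (n : ℕ) : 0 ≤ wt P A n :=
  Finset.sum_nonneg fun _ _ => measureReal_nonneg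

/-- One-sided version for a fixed function and a fixed precision, with the error of the grid. -/
theorem lln_one {p q : ℕ} (hp : 1 ≤ p) (hq : 1 ≤ q) {A : ℕ × ℕ → Set Ω}
    (hA : ∀ u, MeasurableSet (A u)) (hind : iIndepSet A P)
    (hW : Tendsto (fun n : ℕ => wt P A n / n) atTop atTop) (f : C(UnitAddCircle, ℝ)) {ε : ℝ}
    (hε : 0 < ε) :
    ∀ᵐ ω ∂P, ∀ᶠ n : ℕ in atTop, ∀ x : UnitAddCircle,
      ∑ u ∈ box n, cen P A u ω * f ((p ^ u.1 * q ^ u.2) • x) ≤
        ε * wt P A n + ε * ∑ u ∈ box n, |cen P A u ω| := by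
  classical
  have huc : UniformContinuous f := CompactSpace.uniformContinuous_of_continuous f.continuous
  obtain ⟨ρ, hρ, hfρ⟩ := Metric.uniformContinuous_iff.1 huc ε hε
  set L : ℝ := ‖f‖ + 1 with hL
  have hL0 : 0 < L := by have := norm_nonneg f; linarith
  set ε' : ℝ := min (ε / L) 1 with hε'
  have hε'0 : 0 < ε' := lt_min (by positivity) one_pos
  have hε'1 : ε' ≤ 1 := min_le_right _ _
  have hε'L : ε' * L ≤ ε := by
    have h : ε' ≤ ε / L := min_le_left _ _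
    rwa [le_div_iff₀ hL0] at h
  set K : ℕ := ⌈2 / ρ⌉₊ with hK
  have hK1 : 1 ≤ K := Nat.one_le_iff_ne_zero.2 (by
    rw [hK]; exact (Nat.ceil_pos.2 (by positivity)).ne')
  have hK0 : (0 : ℝ) < K := by exact_mod_cast hK1
  have hKρ : 1 / (K : ℝ) < ρ := by
    have h1 : 2 / ρ ≤ K := Nat.le_ceil _
    rw [div_lt_iff₀ hK0]
    rw [div_le_iff₀ hρ] at h1
    linarith
  have hpq1 : 1 ≤ p * q := Nat.mul_pos hp hq
  have hθ : Tendsto (fun n : ℕ => ε' ^ 2 / 4 * wt P A n / n) atTop atTop := by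
    have h2 := hW.const_mul_atTop (show (0 : ℝ) < ε' ^ 2 / 4 by positivity)
    refine h2.congr fun n => ?_
    ring
  have hbc := bc (P := P) (fun n => grid (K * (p * q) ^ n))
    (fun n y => {ω | ε' * ∑ u ∈ box n, P.real (A u) ≤
      ∑ u ∈ box n, f ((p ^ u.1 * q ^ u.2) • y) / L * cen P A u ω}) ((p * q : ℕ) : ℝ) K
    (by exact_mod_cast hpq1) (Nat.cast_nonneg _) (fun n => by
      have := grid_card (K * (p * q) ^ n)
      calc ((grid (K * (p * q) ^ n)).card : ℝ) ≤ ((K * (p * q) ^ n : ℕ) : ℝ) := by exact_mod_cast this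
        _ = _ := by push_cast; ring) (fun n => ε' ^ 2 / 4 * wt P A n) hθ (by
      intro n y _
      refine tail (P := P) hA hind (box n) (fun u => f ((p ^ u.1 * q ^ u.2) • y) / L)
        (fun u _ => ?_) ε' hε'0.le (by linarith)
      rw [abs_div, abs_of_pos hL0, div_le_one hL0]
      have := f.norm_coe_le_norm ((p ^ u.1 * q ^ u.2) • y)
      rw [Real.norm_eq_abs] at this
      linarith)
  filter_upwards [hbc] with ω hω
  filter_upwards [hω] with n hn x
  obtain ⟨y, hy, hxy⟩ := exists_mem_grid (K * (p * q) ^ n) (Nat.mul_pos hK1 (Nat.pow_pos hpq1)) x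
  have hclose : ∀ u ∈ box n, dist ((p ^ u.1 * q ^ u.2) • x) ((p ^ u.1 * q ^ u.2) • y) < ρ := by
    intro u hu
    refine (nsmul_close _ x y).trans_lt ?_
    have h1 : ((p ^ u.1 * q ^ u.2 : ℕ) : ℝ) ≤ (((p * q) ^ n : ℕ) : ℝ) := by
      exact_mod_cast pow_le_of_mem_sq hp hq (box_sub_sq n hu)
    have hpos : (0 : ℝ) < (((p * q) ^ n : ℕ) : ℝ) := by exact_mod_cast Nat.pow_pos hpq1
    calc ((p ^ u.1 * q ^ u.2 : ℕ) : ℝ) * ‖x - y‖
        ≤ (((p * q) ^ n : ℕ) : ℝ) * (1 / ((K * (p * q) ^ n : ℕ) : ℝ)) :=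
          mul_le_mul h1 hxy (norm_nonneg _) hpos.le
      _ = 1 / K := by
          rw [Nat.cast_mul]
          field_simp
      _ < ρ := hKρ
  have h1 := hn y hy
  simp only [not_le] at h1
  have h2 : ∑ u ∈ box n, cen P A u ω * f ((p ^ u.1 * q ^ u.2) • y) ≤ ε * wt P A n := by
    have e : ∑ u ∈ box n, cen P A u ω * f ((p ^ u.1 * q ^ u.2) • y) =
        L * ∑ u ∈ box n, f ((p ^ u.1 * q ^ u.2) • y) / L * cen P A u ω := by
      rw [Finset.mul_sum]
      refine Finset.sum_congr rfl fun u _ => ?_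
      field_simp
    rw [e]
    calc L * ∑ u ∈ box n, f ((p ^ u.1 * q ^ u.2) • y) / L * cen P A u ω
        ≤ L * (ε' * ∑ u ∈ box n, P.real (A u)) := mul_le_mul_of_nonneg_left h1.le hL0.le
      _ = (ε' * L) * wt P A n := by unfold wt; ring
      _ ≤ _ := mul_le_mul_of_nonneg_right hε'L (wt_nonneg A n)
  have h3 : ∑ u ∈ box n, cen P A u ω * f ((p ^ u.1 * q ^ u.2) • x) -
      ∑ u ∈ box n, cen P A u ω * f ((p ^ u.1 * q ^ u.2) • y) ≤ ε * ∑ u ∈ box n, |cen P A u ω| := by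
    rw [← Finset.sum_sub_distrib, Finset.mul_sum]
    refine Finset.sum_le_sum fun u hu => ?_
    rw [← mul_sub]
    refine (le_abs_self _).trans ?_
    rw [abs_mul, mul_comm ε]
    refine mul_le_mul_of_nonneg_left ?_ (abs_nonneg _)
    have := hfρ (hclose u hu)
    rw [Real.dist_eq] at this
    exact this.le
  linarith

/-- The number of the events in the box which occur. -/
noncomputable def cnt (A : ℕ × ℕ → Set Ω) (n : ℕ) (ω : Ω) : ℝ :=
  ∑ u ∈ box n, (A u).indicator (fun _ => (1 : ℝ)) ω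

theorem sum_abs_cen (A : ℕ × ℕ → Set Ω) (n : ℕ) (ω : Ω) :
    ∑ u ∈ box n, |cen P A u ω| ≤ cnt A n ω + wt P A n := by
  unfold cnt wt
  rw [← Finset.sum_add_distrib]
  refine Finset.sum_le_sum fun u _ => ?_
  unfold cen
  have hp0 : 0 ≤ P.real (A u) := measureReal_nonneg
  by_cases h : ω ∈ A u
  · rw [Set.indicator_of_mem h, abs_le]; constructor <;> linarith
  · rw [Set.indicator_of_notMem h, abs_le]; constructor <;> linarith

theorem cnt_sub_wt (A : ℕ × ℕ → Set Ω) (n : ℕ) (ω : Ω) :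
    cnt A n ω - wt P A n = ∑ u ∈ box n, cen P A u ω := by
  unfold cnt wt cen
  rw [← Finset.sum_sub_distrib]

/-- The number of the events in the box which occur is asymptotic to its mean. -/
theorem cnt_asymp {p q : ℕ} (hp : 1 ≤ p) (hq : 1 ≤ q) {A : ℕ × ℕ → Set Ω}
    (hA : ∀ u, MeasurableSet (A u)) (hind : iIndepSet A P)
    (hW : Tendsto (fun n : ℕ => wt P A n / n) atTop atTop) :
    ∀ᵐ ω ∂P, ∀ ε : ℝ, 0 < ε → ∀ᶠ n : ℕ in atTop, |cnt A n ω - wt P A n| ≤ ε * wt P A n := by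
  have h1 : ∀ᵐ ω ∂P, ∀ m : ℕ, ∀ᶠ n : ℕ in atTop, ∀ x : UnitAddCircle,
      ∑ u ∈ box n, cen P A u ω * (1 : C(UnitAddCircle, ℝ)) ((p ^ u.1 * q ^ u.2) • x) ≤
        (1 / ((m : ℝ) + 1)) * wt P A n + (1 / ((m : ℝ) + 1)) * ∑ u ∈ box n, |cen P A u ω| := by
    rw [ae_all_iff]
    exact fun m => lln_one hp hq hA hind hW 1 (by positivity)
  have h2 : ∀ᵐ ω ∂P, ∀ m : ℕ, ∀ᶠ n : ℕ in atTop, ∀ x : UnitAddCircle,
      ∑ u ∈ box n, cen P A u ω * (-1 : C(UnitAddCircle, ℝ)) ((p ^ u.1 * q ^ u.2) • x) ≤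
        (1 / ((m : ℝ) + 1)) * wt P A n + (1 / ((m : ℝ) + 1)) * ∑ u ∈ box n, |cen P A u ω| := by
    rw [ae_all_iff]
    exact fun m => lln_one hp hq hA hind hW (-1) (by positivity)
  filter_upwards [h1, h2] with ω h1 h2 ε hε
  obtain ⟨m, hm⟩ := exists_nat_one_div_lt (show (0 : ℝ) < min (ε / 6) (1 / 2) by positivity)
  have hm0 : (0 : ℝ) < 1 / ((m : ℝ) + 1) := by positivity
  have hm1 : 1 / ((m : ℝ) + 1) ≤ ε / 6 := hm.le.trans (min_le_left _ _)
  have hm2 : 1 / ((m : ℝ) + 1) ≤ 1 / 2 := hm.le.trans (min_le_right _ _)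
  filter_upwards [h1 m, h2 m] with n h3 h4
  have h5 := h3 0
  have h6 := h4 0
  simp only [ContinuousMap.one_apply, ContinuousMap.neg_apply, mul_one, mul_neg,
    Finset.sum_neg_distrib] at h5 h6
  rw [← cnt_sub_wt] at h5 h6
  have h7 := sum_abs_cen (P := P) A n ω
  have h8 : 0 ≤ wt P A n := wt_nonneg A n
  set δ : ℝ := 1 / ((m : ℝ) + 1) with hδ
  set S : ℝ := ∑ u ∈ box n, |cen P A u ω|
  have h9 : δ * S ≤ δ * (cnt A n ω + wt P A n) := mul_le_mul_of_nonneg_left h7 hm0.le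
  have h10 : cnt A n ω ≤ 4 * wt P A n := by nlinarith
  have h11 : δ * (cnt A n ω + wt P A n) ≤ δ * (5 * wt P A n) :=
    mul_le_mul_of_nonneg_left (by linarith) hm0.le
  have h12 : δ * wt P A n ≤ ε / 6 * wt P A n := mul_le_mul_of_nonneg_right hm1 h8
  rw [abs_le]
  constructor <;> nlinarith

/-- The law of large numbers for all continuous functions, uniformly over all points. -/
theorem lln {p q : ℕ} (hp : 1 ≤ p) (hq : 1 ≤ q) {A : ℕ × ℕ → Set Ω}
    (hA : ∀ u, MeasurableSet (A u)) (hind : iIndepSet A P)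
    (hW : Tendsto (fun n : ℕ => wt P A n / n) atTop atTop) :
    ∀ᵐ ω ∂P, ∀ f : C(UnitAddCircle, ℝ), ∀ ε : ℝ, 0 < ε → ∀ᶠ n : ℕ in atTop, ∀ x : UnitAddCircle,
      |∑ u ∈ box n, cen P A u ω * f ((p ^ u.1 * q ^ u.2) • x)| ≤ ε * wt P A n := by
  have h1 : ∀ᵐ ω ∂P, ∀ k m : ℕ, ∀ᶠ n : ℕ in atTop, ∀ x : UnitAddCircle,
      ∑ u ∈ box n, cen P A u ω * (TopologicalSpace.denseSeq C(UnitAddCircle, ℝ) k)
        ((p ^ u.1 * q ^ u.2) • x) ≤
        (1 / ((m : ℝ) + 1)) * wt P A n + (1 / ((m : ℝ) + 1)) * ∑ u ∈ box n, |cen P A u ω| := by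
    rw [ae_all_iff]
    intro k
    rw [ae_all_iff]
    exact fun m => lln_one hp hq hA hind hW _ (by positivity)
  have h2 : ∀ᵐ ω ∂P, ∀ k m : ℕ, ∀ᶠ n : ℕ in atTop, ∀ x : UnitAddCircle,
      ∑ u ∈ box n, cen P A u ω * (-TopologicalSpace.denseSeq C(UnitAddCircle, ℝ) k)
        ((p ^ u.1 * q ^ u.2) • x) ≤
        (1 / ((m : ℝ) + 1)) * wt P A n + (1 / ((m : ℝ) + 1)) * ∑ u ∈ box n, |cen P A u ω| := by
    rw [ae_all_iff]
    intro k
    rw [ae_all_iff]
    exact fun m => lln_one hp hq hA hind hW _ (by positivity)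
  filter_upwards [h1, h2, cnt_asymp hp hq hA hind hW] with ω h1 h2 h0 f ε hε
  obtain ⟨m, hm⟩ := exists_nat_one_div_lt (show (0 : ℝ) < ε / 8 by positivity)
  have hm0 : (0 : ℝ) < 1 / ((m : ℝ) + 1) := by positivity
  obtain ⟨k, hk⟩ := (TopologicalSpace.denseRange_denseSeq C(UnitAddCircle, ℝ)).exists_dist_lt f hm0
  filter_upwards [h1 k m, h2 k m, h0 1 one_pos] with n h3 h4 h5 x
  set g := TopologicalSpace.denseSeq C(UnitAddCircle, ℝ) k with hg
  set δ : ℝ := 1 / ((m : ℝ) + 1) with hδ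
  have h6 := h3 x
  have h7 := h4 x
  simp only [ContinuousMap.neg_apply, mul_neg, Finset.sum_neg_distrib] at h7
  have h8 := sum_abs_cen (P := P) A n ω
  have h9 : 0 ≤ wt P A n := wt_nonneg A n
  rw [abs_le] at h5
  have h10 : ∑ u ∈ box n, |cen P A u ω| ≤ 3 * wt P A n := by linarith
  have h11 : |∑ u ∈ box n, cen P A u ω * f ((p ^ u.1 * q ^ u.2) • x) -
      ∑ u ∈ box n, cen P A u ω * g ((p ^ u.1 * q ^ u.2) • x)| ≤
      δ * ∑ u ∈ box n, |cen P A u ω| := by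
    rw [← Finset.sum_sub_distrib, Finset.mul_sum]
    refine (Finset.abs_sum_le_sum_abs _ _).trans (Finset.sum_le_sum fun u _ => ?_)
    rw [← mul_sub, abs_mul, mul_comm δ]
    refine mul_le_mul_of_nonneg_left ?_ (abs_nonneg _)
    have h := ContinuousMap.dist_apply_le_dist (f := f) (g := g) ((p ^ u.1 * q ^ u.2) • x)
    rw [Real.dist_eq] at h
    exact h.trans hk.le
  have h12 : δ * ∑ u ∈ box n, |cen P A u ω| ≤ δ * (3 * wt P A n) :=
    mul_le_mul_of_nonneg_left h10 hm0.le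
  have h13 : δ * wt P A n ≤ ε / 8 * wt P A n := mul_le_mul_of_nonneg_right hm.le h9
  rw [abs_le] at h11 ⊢
  constructor <;> nlinarith

end Pool.Agent.Q68.RF
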