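import Mathlib
import Pool.Agent.Q68.RF.LLN

/-!
# Limits of averages along random subsets of the semigroup are invariant measures
-/

set_option autoImplicit false
set_option linter.unusedSectionVars false

open MeasureTheory Filter Topology ProbabilityTheory

namespace Pool.Agent.Q68.RF

open Classical in
/-- The pairs of exponents in `S` which are less than `n`. -/
noncomputable def sel (S : Set (ℕ × ℕ)) (n : ℕ) : Finset (ℕ × ℕ) :=
  (Finset.range n ×ˢ Finset.range n).filter (· ∈ S)

/-- The average of `f (p ^ i q ^ j x)` over the pairs `(i, j)` in `S` with `i, j < n`. -/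
noncomputable def avg (p q : ℕ) (S : Set (ℕ × ℕ)) (n : ℕ) (f : UnitAddCircle → ℝ)
    (x : UnitAddCircle) : ℝ :=
  (∑ u ∈ sel S n, f ((p ^ u.1 * q ^ u.2) • x)) / (sel S n).card

theorem abel {a F : ℕ → ℝ} {L : ℝ} (ha : Antitone a) (ha0 : ∀ n, 0 ≤ a n) (hF : ∀ i, |F i| ≤ L)
    (n : ℕ) : |∑ i ∈ Finset.range n, a i * (F (i + 1) - F i)| ≤ 2 * L * a 0 := by
  have hL : 0 ≤ L := (abs_nonneg _).trans (hF 0)
  have key : ∀ n, |∑ i ∈ Finset.range n, a i * (F (i + 1) - F i) - a n * F n| ≤
      L * (2 * a 0 - a n) := by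
    intro n
    induction n with
    | zero =>
      rw [Finset.sum_range_zero, zero_sub, abs_neg, abs_mul, abs_of_nonneg (ha0 0)]
      have := mul_le_mul_of_nonneg_left (hF 0) (ha0 0)
      linarith
    | succ n ih =>
      rw [Finset.sum_range_succ]
      have e : ∑ i ∈ Finset.range n, a i * (F (i + 1) - F i) + a n * (F (n + 1) - F n) -
          a (n + 1) * F (n + 1) =
          (∑ i ∈ Finset.range n, a i * (F (i + 1) - F i) - a n * F n) +
            (a n - a (n + 1)) * F (n + 1) := by ring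
      rw [e]
      refine (abs_add_le _ _).trans ?_
      have h1 : |(a n - a (n + 1)) * F (n + 1)| ≤ (a n - a (n + 1)) * L := by
        have h2 : 0 ≤ a n - a (n + 1) := sub_nonneg.2 (ha (Nat.le_succ n))
        rw [abs_mul, abs_of_nonneg h2]
        exact mul_le_mul_of_nonneg_left (hF _) h2
      linarith
  have h1 := key n
  have h2 : |a n * F n| ≤ a n * L := by
    rw [abs_mul, abs_of_nonneg (ha0 n)]
    exact mul_le_mul_of_nonneg_left (hF n) (ha0 n)
  have h3 := abs_add_le (∑ i ∈ Finset.range n, a i * (F (i + 1) - F i) - a n * F n) (a n * F n)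
  rw [sub_add_cancel] at h3
  linarith

variable {Ω : Type*} [MeasurableSpace Ω] {P : Measure Ω} [IsProbabilityMeasure P]

theorem wt_tendsto {A : ℕ × ℕ → Set Ω} {π : ℕ → ℝ} (hπ : Antitone π)
    (hlim : Tendsto (fun n : ℕ => (n : ℝ) * π n) atTop atTop)
    (hP : ∀ u : ℕ × ℕ, P.real (A u) = π (u.1 + u.2)) :
    Tendsto (fun n : ℕ => wt P A n / n) atTop atTop := by
  have h1 : Tendsto (fun n : ℕ => ((2 * n : ℕ) : ℝ) * π (2 * n) / 2) atTop atTop := by
    have h2 : Tendsto (fun n : ℕ => 2 * n) atTop atTop :=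
      tendsto_id.const_mul_atTop' (by norm_num)
    exact (hlim.comp h2).atTop_div_const (by norm_num)
  refine tendsto_atTop_mono' _ ?_ h1
  filter_upwards [eventually_ge_atTop 1] with n hn
  have hn0 : (0 : ℝ) < n := by exact_mod_cast hn
  rw [le_div_iff₀ hn0]
  unfold wt
  have h3 : ∀ u ∈ box n, π (2 * n) ≤ P.real (A u) := by
    intro u hu
    rw [mem_box] at hu
    rw [hP]
    exact hπ (by omega)
  have h4 := Finset.card_nsmul_le_sum _ _ _ h3
  have h5 : (box n).card = n * n := by
    unfold box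
    rw [Finset.card_product, Finset.card_range]
  rw [h5, nsmul_eq_mul] at h4
  push_cast at h4 ⊢
  nlinarith

theorem sum_sel {A : ℕ × ℕ → Set Ω} (n : ℕ) (ω : Ω) (g : ℕ × ℕ → ℝ) :
    ∑ u ∈ sel {u | ω ∈ A u} n, g u = ∑ u ∈ box n, (A u).indicator (fun _ => (1 : ℝ)) ω * g u := by
  classical
  unfold sel
  rw [Finset.sum_filter]
  refine Finset.sum_congr rfl fun u _ => ?_
  by_cases h : ω ∈ A u
  · rw [Set.indicator_of_mem h, if_pos (show u ∈ {u | ω ∈ A u} from h), one_mul]
  · rw [Set.indicator_of_notMem h, if_neg (show u ∉ {u | ω ∈ A u} from h), zero_mul]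

theorem card_sel {A : ℕ × ℕ → Set Ω} (n : ℕ) (ω : Ω) :
    ((sel {u | ω ∈ A u} n).card : ℝ) = cnt A n ω := by
  have h := sum_sel (A := A) n ω (fun _ => 1)
  simp only [mul_one] at h
  unfold cnt
  rw [← h]
  simp

/-- The averages of a coboundary are small, uniformly over all points. -/
theorem avg_small {p q : ℕ} (hp : 1 ≤ p) (hq : 1 ≤ q) {A : ℕ × ℕ → Set Ω}
    (hA : ∀ u, MeasurableSet (A u)) (hind : iIndepSet A P) {π : ℕ → ℝ} (hπ : Antitone π)
    (hlim : Tendsto (fun n : ℕ => (n : ℝ) * π n) atTop atTop)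
    (hP : ∀ u : ℕ × ℕ, P.real (A u) = π (u.1 + u.2)) :
    ∀ᵐ ω ∂P, (∀ᶠ n : ℕ in atTop, 0 < (sel {u | ω ∈ A u} n).card) ∧
      ∀ (f h : C(UnitAddCircle, ℝ)), ((∀ y, h y = f (p • y) - f y) ∨ (∀ y, h y = f (q • y) - f y)) →
        ∀ ε : ℝ, 0 < ε → ∀ᶠ n : ℕ in atTop, ∀ x : UnitAddCircle,
          |avg p q {u | ω ∈ A u} n h x| ≤ ε := by
  have hW := wt_tendsto (P := P) hπ hlim hP
  have hπ0 : ∀ n, 0 ≤ π n := by
    intro n
    have := hP (n, 0)
    rw [add_zero] at this
    rw [← this]
    exact measureReal_nonneg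
  filter_upwards [lln hp hq hA hind hW, cnt_asymp hp hq hA hind hW] with ω hlln hcnt
  have hWpos : ∀ᶠ n : ℕ in atTop, 0 < wt P A n := by
    filter_upwards [hW.eventually_ge_atTop 1, eventually_ge_atTop 1] with n hn hn1
    have hn0 : (0 : ℝ) < n := by exact_mod_cast hn1
    rw [le_div_iff₀ hn0] at hn
    linarith
  have hcnt2 : ∀ᶠ n : ℕ in atTop, wt P A n / 2 ≤ cnt A n ω := by
    filter_upwards [hcnt (1 / 2) (by norm_num)] with n hn
    rw [abs_le] at hn
    linarith
  refine ⟨?_, ?_⟩
  · filter_upwards [hWpos, hcnt2] with n h1 h2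
    have h3 : (0 : ℝ) < (sel {u | ω ∈ A u} n).card := by
      rw [card_sel]; linarith
    exact_mod_cast h3
  · intro f h hfh ε hε
    have hL : ∀ y, |f y| ≤ ‖f‖ := fun y => by
      have := f.norm_coe_le_norm y
      rwa [Real.norm_eq_abs] at this
    have hsum : ∀ n : ℕ, ∀ x : UnitAddCircle,
        |∑ u ∈ box n, P.real (A u) * h ((p ^ u.1 * q ^ u.2) • x)| ≤ 2 * ‖f‖ * π 0 * n := by
      intro n x
      unfold box
      have hbd : ∀ j, 2 * ‖f‖ * π j ≤ 2 * ‖f‖ * π 0 := fun j =>
        mul_le_mul_of_nonneg_left (hπ (Nat.zero_le j)) (by positivity)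
      rcases hfh with hh | hh
      · rw [Finset.sum_product_right]
        refine (Finset.abs_sum_le_sum_abs _ _).trans ?_
        have h1 : ∀ j ∈ Finset.range n, |∑ i ∈ Finset.range n, P.real (A (i, j)) *
            h ((p ^ i * q ^ j) • x)| ≤ 2 * ‖f‖ * π 0 := by
          intro j _
          have h2 := abel (a := fun i => π (i + j)) (F := fun i => f ((p ^ i * q ^ j) • x))
            (fun a b hab => hπ (Nat.add_le_add_right hab j)) (fun i => hπ0 _) (fun i => hL _) n
          refine le_trans (le_of_eq ?_) (h2.trans ?_)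
          · congr 1
            refine Finset.sum_congr rfl fun i _ => ?_
            rw [hP, hh, smul_smul]
            congr 4
            ring
          · simp only [zero_add]
            exact hbd j
        have h3 := Finset.sum_le_card_nsmul _ _ _ h1
        rw [Finset.card_range, nsmul_eq_mul] at h3
        linarith
      · rw [Finset.sum_product]
        refine (Finset.abs_sum_le_sum_abs _ _).trans ?_
        have h1 : ∀ i ∈ Finset.range n, |∑ j ∈ Finset.range n, P.real (A (i, j)) *
            h ((p ^ i * q ^ j) • x)| ≤ 2 * ‖f‖ * π 0 := by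
          intro i _
          have h2 := abel (a := fun j => π (i + j)) (F := fun j => f ((p ^ i * q ^ j) • x))
            (fun a b hab => hπ (Nat.add_le_add_left hab i)) (fun i => hπ0 _) (fun i => hL _) n
          refine le_trans (le_of_eq ?_) (h2.trans ?_)
          · congr 1
            refine Finset.sum_congr rfl fun j _ => ?_
            rw [hP, hh, smul_smul]
            congr 4
            ring
          · simp only [add_zero]
            exact hbd i
        have h3 := Finset.sum_le_card_nsmul _ _ _ h1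
        rw [Finset.card_range, nsmul_eq_mul] at h3
        linarith
    have hWn : ∀ᶠ n : ℕ in atTop, 2 * ‖f‖ * π 0 * n ≤ ε / 4 * wt P A n := by
      filter_upwards [hW.eventually_ge_atTop (2 * ‖f‖ * π 0 * (4 / ε)), eventually_ge_atTop 1]
        with n hn hn1
      have hn0 : (0 : ℝ) < n := by exact_mod_cast hn1
      rw [le_div_iff₀ hn0] at hn
      calc 2 * ‖f‖ * π 0 * n = ε / 4 * (2 * ‖f‖ * π 0 * (4 / ε) * n) := by
            field_simp
        _ ≤ _ := mul_le_mul_of_nonneg_left hn (by positivity)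
    filter_upwards [hWpos, hcnt2, hWn, hlln h (ε / 4) (by positivity)] with n h1 h2 h3 h4 x
    have h5 := hsum n x
    have h6 := h4 x
    have h7 : ∑ u ∈ sel {u | ω ∈ A u} n, h ((p ^ u.1 * q ^ u.2) • x) =
        ∑ u ∈ box n, cen P A u ω * h ((p ^ u.1 * q ^ u.2) • x) +
          ∑ u ∈ box n, P.real (A u) * h ((p ^ u.1 * q ^ u.2) • x) := by
      rw [sum_sel, ← Finset.sum_add_distrib]
      refine Finset.sum_congr rfl fun u _ => ?_
      unfold cen
      ring
    unfold avg
    rw [h7, card_sel, abs_div, abs_of_nonneg (by linarith : 0 ≤ cnt A n ω),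
      div_le_iff₀ (by linarith)]
    refine (abs_add_le _ _).trans ?_
    have h8 : ε * (wt P A n / 2) ≤ ε * cnt A n ω := mul_le_mul_of_nonneg_left h2 hε.le
    linarith

end Pool.Agent.Q68.RF
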