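import Mathlib
import Pool.Agent.Q68.RF.Limits

/-!
# The limits are exactly the invariant measures
-/

set_option autoImplicit false
set_option linter.unusedSectionVars false

open MeasureTheory Filter Topology ProbabilityTheory

namespace Pool.Agent.Q68.RF

theorem int_cont (μ : Measure UnitAddCircle) [IsFiniteMeasure μ] {g : UnitAddCircle → ℝ}
    (hg : Continuous g) : Integrable g μ :=
  hg.integrable_of_hasCompactSupport (HasCompactSupport.of_compactSpace _)

theorem cont_smul (m : ℕ) : Continuous fun x : UnitAddCircle => m • x := continuous_nsmul m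

theorem mp_of_integral {m : ℕ} {μ : Measure UnitAddCircle} [IsProbabilityMeasure μ]
    (h : ∀ f : C(UnitAddCircle, ℝ), ∫ x, f (m • x) ∂μ = ∫ x, f x ∂μ) :
    MeasurePreserving (fun x : UnitAddCircle => m • x) μ μ := by
  have hm : Measurable fun x : UnitAddCircle => m • x := (cont_smul m).measurable
  refine ⟨hm, ?_⟩
  have : IsProbabilityMeasure (μ.map fun x : UnitAddCircle => m • x) :=
    Measure.isProbabilityMeasure_map hm.aemeasurable
  refine ext_of_forall_integral_eq_of_IsFiniteMeasure fun f => ?_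
  rw [integral_map hm.aemeasurable f.continuous.aestronglyMeasurable]
  exact h f.toContinuousMap

theorem mp_iter {m : ℕ} {μ : Measure UnitAddCircle}
    (h : MeasurePreserving (fun x : UnitAddCircle => m • x) μ μ) (i : ℕ) :
    MeasurePreserving (fun x : UnitAddCircle => (m ^ i) • x) μ μ := by
  induction i with
  | zero =>
    have e : (fun x : UnitAddCircle => (m ^ 0) • x) = id := by
      funext x; rw [pow_zero, one_smul]; rfl
    rw [e]
    exact MeasurePreserving.id μ
  | succ i ih =>
    have e : (fun x : UnitAddCircle => (m ^ (i + 1)) • x) =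
        (fun x : UnitAddCircle => m • x) ∘ fun x : UnitAddCircle => (m ^ i) • x := by
      funext x
      simp only [Function.comp_apply]
      rw [smul_smul, pow_succ, mul_comm]
    rw [e]
    exact h.comp ih

theorem mp_pq {p q : ℕ} {μ : Measure UnitAddCircle}
    (hp : MeasurePreserving (fun x : UnitAddCircle => p • x) μ μ)
    (hq : MeasurePreserving (fun x : UnitAddCircle => q • x) μ μ) (i j : ℕ) :
    MeasurePreserving (fun x : UnitAddCircle => (p ^ i * q ^ j) • x) μ μ := by
  have e : (fun x : UnitAddCircle => (p ^ i * q ^ j) • x) =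
      (fun x : UnitAddCircle => (p ^ i) • x) ∘ fun x : UnitAddCircle => (q ^ j) • x := by
    funext x
    simp only [Function.comp_apply]
    rw [smul_smul]
  rw [e]
  exact (mp_iter hp i).comp (mp_iter hq j)

theorem cont_avg (p q : ℕ) (S : Set (ℕ × ℕ)) (n : ℕ) (f : C(UnitAddCircle, ℝ)) :
    Continuous (avg p q S n f) := by
  unfold avg
  refine Continuous.div_const ?_ _
  exact continuous_finsetSum _ fun u _ => f.continuous.comp (cont_smul _)

theorem integral_avg {p q : ℕ} (S : Set (ℕ × ℕ)) (n : ℕ) (hn : 0 < (sel S n).card)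
    (f : C(UnitAddCircle, ℝ)) {μ : Measure UnitAddCircle} [IsProbabilityMeasure μ]
    (hp : MeasurePreserving (fun x : UnitAddCircle => p • x) μ μ)
    (hq : MeasurePreserving (fun x : UnitAddCircle => q • x) μ μ) :
    ∫ x, avg p q S n f x ∂μ = ∫ x, f x ∂μ := by
  unfold avg
  have hi : ∀ u ∈ sel S n, Integrable (fun x : UnitAddCircle => f ((p ^ u.1 * q ^ u.2) • x)) μ :=
    fun u _ => int_cont μ (f.continuous.comp (cont_smul (p ^ u.1 * q ^ u.2)))
  rw [integral_div, integral_finsetSum _ hi]
  have h : ∀ u ∈ sel S n, ∫ x, f ((p ^ u.1 * q ^ u.2) • x) ∂μ = ∫ x, f x ∂μ := by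
    intro u _
    have h1 := mp_pq hp hq u.1 u.2
    conv_rhs => rw [← h1.map_eq]
    rw [integral_map h1.measurable.aemeasurable f.continuous.aestronglyMeasurable]
  rw [Finset.sum_congr rfl h, Finset.sum_const, nsmul_eq_mul]
  have : ((sel S n).card : ℝ) ≠ 0 := by exact_mod_cast hn.ne'
  field_simp

variable {Ω : Type*} [MeasurableSpace Ω] {P : Measure Ω} [IsProbabilityMeasure P]

theorem limits {p q : ℕ} (hp : 1 ≤ p) (hq : 1 ≤ q) {A : ℕ × ℕ → Set Ω}
    (hA : ∀ u, MeasurableSet (A u)) (hind : iIndepSet A P) {π : ℕ → ℝ} (hπ : Antitone π)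
    (hlim : Tendsto (fun n : ℕ => (n : ℝ) * π n) atTop atTop)
    (hP : ∀ u : ℕ × ℕ, P.real (A u) = π (u.1 + u.2)) :
    ∀ᵐ ω ∂P, ∀ μ : Measure UnitAddCircle, IsProbabilityMeasure μ →
      ((MeasurePreserving (fun x : UnitAddCircle => p • x) μ μ ∧
        MeasurePreserving (fun x : UnitAddCircle => q • x) μ μ) ↔
        ∃ (ν : ℕ → Measure UnitAddCircle) (φ : ℕ → ℕ), (∀ k, IsProbabilityMeasure (ν k)) ∧
          Tendsto φ atTop atTop ∧ ∀ f : C(UnitAddCircle, ℝ),
            Tendsto (fun k => ∫ x, avg p q {u | ω ∈ A u} (φ k) f x ∂(ν k)) atTop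
              (𝓝 (∫ x, f x ∂μ))) := by
  filter_upwards [avg_small hp hq hA hind hπ hlim hP] with ω hω μ hμ
  obtain ⟨hpos, hsm⟩ := hω
  constructor
  · rintro ⟨h1, h2⟩
    refine ⟨fun _ => μ, id, fun _ => hμ, tendsto_id, fun f => ?_⟩
    refine tendsto_const_nhds.congr' ?_
    filter_upwards [hpos] with n hn
    exact (integral_avg _ n hn f h1 h2).symm
  · rintro ⟨ν, φ, hν, hφ, hlimν⟩
    have key : ∀ (f h : C(UnitAddCircle, ℝ)),
        ((∀ y, h y = f (p • y) - f y) ∨ (∀ y, h y = f (q • y) - f y)) → ∫ x, h x ∂μ = 0 := by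
      intro f h hfh
      have h1 : Tendsto (fun k => ∫ x, avg p q {u | ω ∈ A u} (φ k) h x ∂(ν k)) atTop (𝓝 0) := by
        rw [Metric.tendsto_nhds]
        intro ε hε
        filter_upwards [hφ.eventually (hsm f h hfh (ε / 2) (by positivity))] with k hk
        rw [Real.dist_eq, sub_zero]
        have := hν k
        have h2 : ‖∫ x, avg p q {u | ω ∈ A u} (φ k) h x ∂(ν k)‖ ≤ ε / 2 * (ν k).real Set.univ :=
          norm_integral_le_of_norm_le_const (Eventually.of_forall fun x => hk x)
        rw [probReal_univ, mul_one, Real.norm_eq_abs] at h2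
        linarith
      exact tendsto_nhds_unique (hlimν h) h1
    have key2 : ∀ m : ℕ, (∀ (f h : C(UnitAddCircle, ℝ)), (∀ y, h y = f (m • y) - f y) →
        ∫ x, h x ∂μ = 0) → MeasurePreserving (fun x : UnitAddCircle => m • x) μ μ := by
      intro m hm
      refine mp_of_integral fun f => ?_
      have h1 := hm f ⟨fun y => f (m • y) - f y, by
        exact (f.continuous.comp (cont_smul m)).sub f.continuous⟩ (fun y => rfl)
      have h2 : ∫ x, (f (m • x) - f x) ∂μ = 0 := h1
      have hi : Integrable (fun x : UnitAddCircle => f (m • x)) μ :=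
        int_cont μ (f.continuous.comp (cont_smul m))
      rw [integral_sub hi (int_cont μ f.continuous)] at h2
      linarith
    exact ⟨key2 p fun f h hf => key f h (Or.inl hf), key2 q fun f h hf => key f h (Or.inr hf)⟩

end Pool.Agent.Q68.RF
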