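import Mathlib
import Pool.Agent.Q68.RF.Avoid
import Pool.Agent.Q68.RF.Inv
import Pool.Agent.TH654.FC.Open

/-!
# Sparse subsets: uncountably many points without invariant limit measures
-/

set_option autoImplicit false
set_option linter.unusedSectionVars false

open MeasureTheory Filter Topology

namespace Pool.Agent.Q68.RF

/-- No measure invariant under `x ↦ p x` and `x ↦ q x` is a weak limit, along a subsequence, of the
averages along `S` at the point `x`. -/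
def NoInvLimit (p q : ℕ) (S : Set (ℕ × ℕ)) (x : UnitAddCircle) : Prop :=
  ∀ μ : Measure UnitAddCircle, IsProbabilityMeasure μ →
    MeasurePreserving (fun y : UnitAddCircle => p • y) μ μ →
    MeasurePreserving (fun y : UnitAddCircle => q • y) μ μ →
    ∀ φ : ℕ → ℕ, Tendsto φ atTop atTop →
      ¬ ∀ f : C(UnitAddCircle, ℝ),
        Tendsto (fun k => avg p q S (φ k) f x) atTop (𝓝 (∫ y, f y ∂μ))

theorem ae_of_avg_zero {p q : ℕ} {S : Set (ℕ × ℕ)} {x : UnitAddCircle}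
    {μ : Measure UnitAddCircle} [IsProbabilityMeasure μ] {φ : ℕ → ℕ}
    (hlim : ∀ f : C(UnitAddCircle, ℝ),
        Tendsto (fun k => avg p q S (φ k) f x) atTop (𝓝 (∫ y, f y ∂μ)))
    (d : ℕ) (δ : ℝ) (h : ∀ u ∈ S, δ ≤ ‖(d * (p ^ u.1 * q ^ u.2)) • x‖) :
    ∀ᵐ y ∂μ, δ ≤ ‖d • y‖ := by
  have hc : Continuous fun y : UnitAddCircle => max 0 (δ - ‖d • y‖) :=
    continuous_const.max (continuous_const.sub (cont_smul d).norm)
  set f : C(UnitAddCircle, ℝ) := ⟨fun y => max 0 (δ - ‖d • y‖), hc⟩ with hf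
  have h1 : ∀ n, avg p q S n f x = 0 := by
    intro n
    unfold avg
    have h2 : ∑ u ∈ sel S n, f ((p ^ u.1 * q ^ u.2) • x) = 0 := by
      refine Finset.sum_eq_zero fun u hu => ?_
      have hu' : u ∈ S := by
        simp only [sel, Finset.mem_filter] at hu
        exact hu.2
      have h3 := h u hu'
      change max 0 (δ - ‖d • (p ^ u.1 * q ^ u.2) • x‖) = 0
      rw [smul_smul]
      exact max_eq_left (by linarith)
    rw [h2, zero_div]
  have h2 : ∫ y, f y ∂μ = 0 := by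
    refine tendsto_nhds_unique (hlim f) ?_
    simp_rw [h1]
    exact tendsto_const_nhds
  have h3 : 0 ≤ᵐ[μ] fun y => f y := Eventually.of_forall fun y => le_max_left _ _
  have h4 := (integral_eq_zero_iff_of_nonneg_ae h3 (int_cont μ f.continuous)).1 h2
  filter_upwards [h4] with y hy
  have h5 : max 0 (δ - ‖d • y‖) = 0 := hy
  have h6 := le_max_right 0 (δ - ‖d • y‖)
  rw [h5] at h6
  linarith

open Classical in
theorem exceptional {p q : ℕ} (hp : 2 ≤ p) (hq : 2 ≤ q)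
    (hpq : Irrational (Real.log (p : ℝ) / Real.log (q : ℝ))) (S : Set (ℕ × ℕ)) (M : ℕ)
    (hM : ∀ k, ((win p q k).filter (· ∈ S)).card ≤ M) :
    ¬ {x : UnitAddCircle | (∃ δ : ℝ, 0 < δ ∧ ∀ u ∈ S, δ ≤ ‖(p ^ u.1 * q ^ u.2) • x‖) ∧
      NoInvLimit p q S x}.Countable := by
  intro hcount
  obtain ⟨δ, hδ, hav⟩ := avoid hp hq S M hM
  obtain ⟨d, hd, hkill⟩ := Pool.Agent.TH654.FC.exists_killing hp hq hpq
    (U := Metric.ball (0 : UnitAddCircle) δ) Metric.isOpen_ball ⟨0, Metric.mem_ball_self hδ⟩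
  obtain ⟨δ', hδ', hav'⟩ := hav d hd
  obtain ⟨eT, heT⟩ := Set.countable_iff_exists_subset_range.1 hcount
  have hrep : ∀ z : UnitAddCircle, ∃ y : ℝ, y ∈ Set.Ico (0 : ℝ) 1 ∧ (y : UnitAddCircle) = z := by
    intro z
    obtain ⟨t, ht, h⟩ := (AddCircle.coe_image_Ico_eq (1 : ℝ) 0).symm ▸ Set.mem_univ z
    rw [zero_add] at ht
    exact ⟨t, ht, h⟩
  choose rep hrep1 hrep2 using hrep
  obtain ⟨x, hx0, hx1, hxe, hx⟩ := hav' (fun k => rep (eT k))
  have hmem : (x : UnitAddCircle) ∈ {x : UnitAddCircle |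
      (∃ δ : ℝ, 0 < δ ∧ ∀ u ∈ S, δ ≤ ‖(p ^ u.1 * q ^ u.2) • x‖) ∧ NoInvLimit p q S x} := by
    refine ⟨⟨δ, hδ, fun u hu => (hx u hu).1⟩, ?_⟩
    intro μ hμ hμp hμq φ hφ hlim
    have h1 := ae_of_avg_zero hlim 1 δ (fun u hu => by rw [one_mul]; exact (hx u hu).1)
    have h2 := ae_of_avg_zero hlim d δ' (fun u hu => (hx u hu).2)
    have h3 : ∀ᵐ y ∂μ, ∀ i j : ℕ, δ ≤ ‖1 • ((p ^ i * q ^ j) • y)‖ := by
      rw [ae_all_iff]
      intro i
      rw [ae_all_iff]
      intro j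
      exact (mp_pq hμp hμq i j).quasiMeasurePreserving.ae h1
    obtain ⟨y, hy2, hy3⟩ := (h2.and h3).exists
    have h4 : d • y = 0 := by
      apply hkill
      intro i j hij
      have h5 := hy3 i j
      rw [one_smul] at h5
      rw [Metric.mem_ball, dist_zero_right] at hij
      linarith
    rw [h4, norm_zero] at hy2
    linarith
  obtain ⟨k, hk⟩ := heT hmem
  have hk2 : ((rep (eT k) : ℝ) : UnitAddCircle) = (x : UnitAddCircle) := by
    rw [hrep2, hk]
  apply hxe k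
  have h5 := (AddCircle.coe_eq_coe_iff_of_mem_Ico (p := (1 : ℝ)) (a := 0)
    (by rw [zero_add]; exact hrep1 (eT k)) (by rw [zero_add]; exact ⟨hx0, hx1⟩)).1 hk2
  exact h5.symm

end Pool.Agent.Q68.RF
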